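import Mathlib
import Pool.Agent.Helper58.EU.Key

set_option autoImplicit false

/-! Good finite sets and orderings. -/

namespace Pool.Agent.Helper58.EU

open Pool.Agent.Y920.EP Pool.Agent.Helper58.ET

section

variable {F : Type} [Field F] {A : Type} [CommGroup A] {φ : Fˣ →* A}

/-- for each `c` in `C` the classes of the quotients `(c' - c) / c'` generate everything -/
def Good (φ : Fˣ →* A) (C : Finset Fˣ) : Prop :=
  ∀ c ∈ C, Subgroup.closure {g | ∃ c' ∈ C, ∃ d : Fˣ, (d : F) = c' - c ∧ g = φ d / φ c'} = ⊤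

/-- positive cones of orderings -/
structure Ordg (S : Subgroup Fˣ) : Prop where
  neg : -1 ∉ S
  tot : ∀ u : Fˣ, u ∈ S ∨ -u ∈ S
  add : ∀ u ∈ S, ∃ z : Fˣ, (z : F) = 1 + u ∧ z ∈ S

lemma exists_good [Finite A] (hφ : Function.Surjective φ)
    (h : ∀ D : Subgroup A, D ≠ ⊤ → ∃ C : Finset Fˣ, 1 ∈ C ∧ ∀ c ∈ C, ∃ c' ∈ C, ∃ d : Fˣ,
      (d : F) = c' - c ∧ φ d / φ c' ∉ D) :
    ∃ C : Finset Fˣ, Good φ C ∧ 1 ∈ C ∧ ∀ a : A, ∃ c ∈ C, φ c = a := by
  classical
  have _ := Fintype.ofFinite A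
  have _ := Fintype.ofFinite {D : Subgroup A // D ≠ ⊤}
  choose r hr using hφ
  choose Cd h1 h2 using fun D : {D : Subgroup A // D ≠ ⊤} => h D.1 D.2
  have hone : ∀ e ∈ insert 1 (Finset.univ.image fun a => r a), e ∈
      ((insert 1 (Finset.univ.image fun a => r a) ×ˢ Fintype.piFinset Cd).image
        fun q => q.1 * ∏ D, q.2 D) := by
    intro e he
    refine Finset.mem_image.2 ⟨(e, fun _ => 1), ?_, by simp⟩
    rw [Finset.mem_product]
    exact ⟨he, Fintype.mem_piFinset.2 fun D => h1 D⟩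
  refine ⟨_, ?_, hone 1 (Finset.mem_insert_self _ _), fun a => ⟨r a, hone _
    (Finset.mem_insert_of_mem (Finset.mem_image.2 ⟨a, Finset.mem_univ _, rfl⟩)), hr a⟩⟩
  intro c hc
  rw [Finset.mem_image] at hc
  obtain ⟨⟨e, f⟩, he, rfl⟩ := hc
  rw [Finset.mem_product] at he
  obtain ⟨he1, he2⟩ := he
  dsimp only at he1 he2 ⊢
  rw [Fintype.mem_piFinset] at he2
  by_contra hne
  obtain ⟨D, hD⟩ : ∃ D : {D : Subgroup A // D ≠ ⊤}, D = ⟨_, hne⟩ := ⟨_, rfl⟩
  obtain ⟨c', hc', d, hd, hdD⟩ := h2 D (f D) (he2 D)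
  apply hdD
  rw [hD]
  apply Subgroup.subset_closure
  refine ⟨e * ∏ E, Function.update f D c' E, Finset.mem_image.2 ⟨(e, Function.update f D c'), ?_,
    rfl⟩, e * (∏ E ∈ Finset.univ.erase D, f E) * d, ?_, ?_⟩
  · rw [Finset.mem_product]
    refine ⟨he1, Fintype.mem_piFinset.2 fun E => ?_⟩
    change Function.update f D c' E ∈ Cd E
    by_cases hE : E = D
    · subst hE
      rw [Function.update_self]
      exact hc'
    · rw [Function.update_of_ne hE]
      exact he2 E
  · rw [← Finset.mul_prod_erase _ f (Finset.mem_univ D),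
      ← Finset.mul_prod_erase _ (Function.update f D c') (Finset.mem_univ D), Function.update_self]
    have e1 : ∏ E ∈ Finset.univ.erase D, Function.update f D c' E =
        ∏ E ∈ Finset.univ.erase D, f E := by
      refine Finset.prod_congr rfl fun E hE => ?_
      rw [Function.update_of_ne (Finset.ne_of_mem_erase hE)]
    rw [e1]
    simp only [Units.val_mul]
    rw [hd]
    ring
  · rw [← Finset.mul_prod_erase _ (Function.update f D c') (Finset.mem_univ D),
      Function.update_self]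
    have e1 : ∏ E ∈ Finset.univ.erase D, Function.update f D c' E =
        ∏ E ∈ Finset.univ.erase D, f E := by
      refine Finset.prod_congr rfl fun E hE => ?_
      rw [Function.update_of_ne (Finset.ne_of_mem_erase hE)]
    rw [e1, ← map_div, ← map_div]
    congr 1
    rw [mul_left_comm e c', mul_comm c', mul_div_mul_left_eq_div]

/-- the property of a pair for a bad subgroup -/
def Bad (φ : Fˣ →* A) (D : Subgroup A) : Prop :=
  ∀ x d : Fˣ, (d : F) = x - 1 → φ d / φ x ∈ D ∨ φ (-d) ∈ D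

lemma bad_of {D : Subgroup A} (h : ∀ C : Finset Fˣ, 1 ∈ C → ∃ c ∈ C, ∀ c' ∈ C, ∀ d : Fˣ,
      (d : F) = c' - c → φ d / φ c' ∈ D) : Bad φ D := by
  classical
  intro x d hd
  obtain ⟨c, hc, hc1⟩ := h {1, x} (by simp)
  rw [Finset.mem_insert, Finset.mem_singleton] at hc
  rcases hc with rfl | rfl
  · left
    exact hc1 x (by simp) d (by rw [hd, Units.val_one])
  · right
    have := hc1 1 (by simp) (-d) (by rw [Units.val_neg, hd, Units.val_one]; ring)
    rwa [map_one, div_one] at this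

/-- bad subgroups do not contain `-1` -/
lemma Bad.neg_notMem [Infinite F] [Finite A] (hφ : Function.Surjective φ) {D : Subgroup A}
    (hD : D ≠ ⊤) (h : Bad φ D) : φ (-1) ∉ D := by
  intro hneg
  have h1 : ∀ x d : Fˣ, φ x ∈ D → (d : F) = x - 1 → φ d ∈ D := by
    intro x d hx hd
    rcases h x d hd with h2 | h2
    · have := mul_mem h2 hx
      rwa [div_mul_cancel] at this
    · rw [phi_neg' φ d] at h2
      exact (Subgroup.mul_mem_cancel_left D hneg).1 h2
  obtain ⟨a, ha⟩ : ∃ a, a ∉ D := by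
    by_contra hcon
    push Not at hcon
    exact hD ((Subgroup.eq_top_iff' _).2 hcon)
  obtain ⟨y, rfl⟩ := hφ a
  -- the sums with `y`
  have hS : Infinite (D.comap φ) := by
    by_contra hfin
    rw [not_infinite_iff_finite] at hfin
    have h3 : φ.ker ≤ D.comap φ := fun x hx => by
      rw [Subgroup.mem_comap, (MonoidHom.mem_ker).1 hx]
      exact one_mem _
    have h4 : Finite φ.ker := Finite.of_injective _ (Subgroup.inclusion_injective h3)
    have h5 : Finite Fˣ := by
      apply Nat.finite_of_card_ne_zero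
      rw [← φ.ker.card_mul_index, Subgroup.index_ker]
      exact mul_ne_zero Nat.card_pos.ne' Nat.card_pos.ne'
    have h6 : Finite F := by
      refine Finite.of_surjective (fun o : Option Fˣ => o.elim (0 : F) Units.val) fun x => ?_
      by_cases hx : x = 0
      · exact ⟨none, by rw [hx]; rfl⟩
      · exact ⟨some (Units.mk0 x hx), rfl⟩
    exact not_finite F
  have hne : ∀ s : D.comap φ, (y : F) + (s : Fˣ) ≠ 0 := by
    intro s e
    apply ha
    have : y = -(s : Fˣ) := by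
      ext
      rw [Units.val_neg]
      linear_combination e
    rw [this, phi_neg' φ]
    exact mul_mem hneg s.2
  obtain ⟨a, b, hab, e⟩ := Finite.exists_ne_map_eq_of_infinite
    fun s : D.comap φ => φ (Units.mk0 _ (hne s))
  obtain ⟨s, hs⟩ : ∃ s : Fˣ, s = Units.mk0 _ (hne a) / Units.mk0 _ (hne b) := ⟨_, rfl⟩
  have hsD : φ s = 1 := by
    rw [hs, map_div, div_eq_one]
    exact e
  have hs1 : (y : F) + (a : Fˣ) = s * (y + (b : Fˣ)) := by
    rw [hs, Units.val_div_eq_div_val, Units.val_mk0, Units.val_mk0, div_mul_cancel₀ _ (hne b)]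
  have hsne : (s : F) - 1 ≠ 0 := by
    intro e0
    apply hab
    have : (s : F) = 1 := by linear_combination e0
    rw [this, one_mul, add_right_inj] at hs1
    exact Subtype.ext (Units.ext hs1)
  obtain ⟨t, ht⟩ : ∃ t : Fˣ, (t : F) = s - 1 := ⟨Units.mk0 _ hsne, Units.val_mk0 _⟩
  have ht1 := h1 s t (by rw [hsD]; exact one_mem _) ht
  have h2 : (t : F) * y = -((a : Fˣ) * (((s * b / a : Fˣ) : F) - 1)) := by
    rw [ht, Units.val_div_eq_div_val, Units.val_mul]
    have ha0 : (((a : Fˣ)) : F) ≠ 0 := Units.ne_zero _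
    field_simp
    linear_combination (-1) * hs1
  have hw0 : ((s * b / a : Fˣ) : F) - 1 ≠ 0 := by
    intro e0
    rw [e0, mul_zero, neg_zero] at h2
    exact (mul_ne_zero t.ne_zero y.ne_zero) h2
  obtain ⟨w, hw⟩ : ∃ w : Fˣ, (w : F) = ((s * b / a : Fˣ) : F) - 1 :=
    ⟨Units.mk0 _ hw0, Units.val_mk0 _⟩
  have hw1 := h1 _ w (by
    rw [map_div, map_mul, hsD, one_mul]
    exact div_mem b.2 a.2) hw
  have h3 : t * y = -((a : Fˣ) * w) := by
    ext
    rw [Units.val_mul, Units.val_neg, Units.val_mul, hw]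
    exact h2
  have h4 : φ t * φ y ∈ D := by
    rw [← map_mul, h3, phi_neg' φ, map_mul]
    exact mul_mem hneg (mul_mem a.2 hw1)
  exact ha ((Subgroup.mul_mem_cancel_left D ht1).1 h4)

/-- bad subgroups give orderings -/
lemma Bad.ord [Infinite F] [Finite A] (hφ : Function.Surjective φ) {p : ℕ} (hp : p.Prime)
    (hkp : ∀ c : Fˣ, φ (c ^ p) = 1) {D : Subgroup A} (hD : D ≠ ⊤) (h : Bad φ D) :
    p = 2 ∧ ∃ S : Subgroup Fˣ, Ordg S ∧ φ.ker ≤ S := by
  obtain ⟨M, hM, hDM⟩ := (IsCoatomic.eq_top_or_exists_le_coatom D).resolve_left hD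
  have hb : Bad φ M := fun x d hd => (h x d hd).imp (fun h => hDM h) (fun h => hDM h)
  have hneg := hb.neg_notMem hφ hM.1
  have hp2 : p = 2 := by
    by_contra hp2
    apply hneg
    have hodd : Odd p := hp.odd_of_ne_two hp2
    have : (-1 : Fˣ) = (-1) ^ p := by rw [hodd.neg_one_pow]
    rw [this, hkp]
    exact one_mem _
  subst hp2
  refine ⟨rfl, M.comap φ, ⟨hneg, fun u => ?_, fun u hu => ?_⟩, fun x hx => ?_⟩
  · rw [Subgroup.mem_comap, Subgroup.mem_comap]
    by_cases hu : φ u ∈ M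
    · exact Or.inl hu
    right
    have h1 : M ⊔ Subgroup.zpowers (φ u) = ⊤ := by
      apply hM.2
      rw [left_lt_sup]
      intro hle
      exact hu (hle (Subgroup.mem_zpowers _))
    have h2 : φ (-1) ∈ M ⊔ Subgroup.zpowers (φ u) := by rw [h1]; exact Subgroup.mem_top _
    rw [Subgroup.mem_sup] at h2
    obtain ⟨m, hm, z, hz, e⟩ := h2
    obtain ⟨k, rfl⟩ := Subgroup.mem_zpowers_iff.1 hz
    have hsq : φ u * φ u = 1 := by
      have := hkp u
      rwa [pow_two, map_mul] at this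
    rcases Int.even_or_odd k with ⟨l, rfl⟩ | ⟨l, rfl⟩
    · exfalso
      apply hneg
      rw [← e, zpow_add, ← mul_zpow, hsq, one_zpow, mul_one]
      exact hm
    · rw [phi_neg' φ, ← e, zpow_add, two_mul, zpow_add, ← mul_zpow, hsq, one_zpow, one_mul, zpow_one,
        mul_assoc, hsq, mul_one]
      exact hm
  · have hne : (1 : F) + u ≠ 0 := by
      intro e
      apply hneg
      have : u = -1 := by
        ext
        rw [Units.val_neg, Units.val_one]
        linear_combination e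
      rw [← this]
      exact hu
    obtain ⟨z, hz⟩ : ∃ z : Fˣ, (z : F) = 1 + u := ⟨Units.mk0 _ hne, Units.val_mk0 _⟩
    refine ⟨z, hz, ?_⟩
    rw [Subgroup.mem_comap]
    rcases hb (-u) (-z) (by rw [Units.val_neg, Units.val_neg, hz]; ring) with h1 | h1
    · rw [phi_neg' φ z, phi_neg' φ u, mul_div_mul_left_eq_div] at h1
      have := mul_mem h1 hu
      rwa [div_mul_cancel] at this
    · rwa [neg_neg] at h1
  · rw [Subgroup.mem_comap, (MonoidHom.mem_ker).1 hx]
    exact one_mem _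

/-- a good finite set or an ordering -/
lemma good_or_ord [Infinite F] [Finite A] (hφ : Function.Surjective φ) {p : ℕ} (hp : p.Prime)
    (hkp : ∀ c : Fˣ, φ (c ^ p) = 1) :
    (∃ C : Finset Fˣ, Good φ C ∧ 1 ∈ C ∧ ∀ a : A, ∃ c ∈ C, φ c = a) ∨
      (p = 2 ∧ ∃ S : Subgroup Fˣ, Ordg S ∧ φ.ker ≤ S) := by
  by_cases h : ∀ D : Subgroup A, D ≠ ⊤ → ∃ C : Finset Fˣ, 1 ∈ C ∧ ∀ c ∈ C, ∃ c' ∈ C, ∃ d : Fˣ,
      (d : F) = c' - c ∧ φ d / φ c' ∉ D
  · exact Or.inl (exists_good hφ h)
  · push Not at h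
    obtain ⟨D, hD, h1⟩ := h
    exact Or.inr ((bad_of h1).ord hφ hp hkp hD)

end

end Pool.Agent.Helper58.EU
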