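import Mathlib
import Pool.Agent.Helper58.EU.Cube

set_option autoImplicit false

/-! The case of orderings. -/

namespace Pool.Agent.Helper58.EU

open Pool.Agent.Y920.EP Pool.Agent.Helper58.ET

section

variable {F : Type} [Field F]

/-- positive elements -/
def Pos (S : Subgroup Fˣ) (x : F) : Prop := ∃ u : Fˣ, (u : F) = x ∧ u ∈ S

variable {S : Subgroup Fˣ}

lemma Pos.mul {x y : F} (hx : Pos S x) (hy : Pos S y) : Pos S (x * y) := by
  obtain ⟨u, rfl, hu⟩ := hx
  obtain ⟨v, rfl, hv⟩ := hy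
  exact ⟨u * v, by rw [Units.val_mul], mul_mem hu hv⟩

lemma Ordg.pos_add (h : Ordg S) {x y : F} (hx : Pos S x) (hy : Pos S y) : Pos S (x + y) := by
  obtain ⟨u, rfl, hu⟩ := hx
  obtain ⟨v, rfl, hv⟩ := hy
  obtain ⟨z, hz, hz1⟩ := h.add (v / u) (div_mem hv hu)
  refine ⟨u * z, ?_, mul_mem hu hz1⟩
  have hu0 : (u : F) ≠ 0 := u.ne_zero
  rw [Units.val_mul, hz, Units.val_div_eq_div_val]
  field_simp

lemma Ordg.not_zero : ¬ Pos S (0 : F) := by
  rintro ⟨u, hu, -⟩
  exact u.ne_zero hu

lemma Ordg.asymm (h : Ordg S) {x : F} (hx : Pos S x) : ¬ Pos S (-x) := by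
  intro hx'
  have := h.pos_add hx hx'
  rw [add_neg_cancel] at this
  exact Ordg.not_zero this

lemma Ordg.total (h : Ordg S) {x : F} (hx : x ≠ 0) : Pos S x ∨ Pos S (-x) := by
  rcases h.tot (Units.mk0 x hx) with h1 | h1
  · exact Or.inl ⟨_, Units.val_mk0 _, h1⟩
  · exact Or.inr ⟨_, by rw [Units.val_neg, Units.val_mk0], h1⟩

lemma Ordg.one : Pos S (1 : F) := ⟨1, Units.val_one, one_mem _⟩

/-- the linear order of an ordering -/
lemma Ordg.lin (h : Ordg S) : ∃ (_ : LinearOrder F) (_ : IsStrictOrderedRing F),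
    ∀ x : F, 0 < x ↔ Pos S x := by
  classical
  let o : LinearOrder F :=
    { le := fun x y => x = y ∨ Pos S (y - x)
      lt := fun x y => Pos S (y - x)
      le_refl := fun x => Or.inl rfl
      le_trans := by
        rintro x y z (rfl | h1) (rfl | h2)
        · exact Or.inl rfl
        · exact Or.inr h2
        · exact Or.inr h1
        · right
          have := h.pos_add h1 h2
          rwa [add_comm, sub_add_sub_cancel] at this
      lt_iff_le_not_ge := by
        intro x y
        constructor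
        · intro h1
          refine ⟨Or.inr h1, ?_⟩
          rintro (rfl | h2)
          · rw [sub_self] at h1
            exact Ordg.not_zero h1
          · apply h.asymm h1
            rwa [neg_sub]
        · rintro ⟨rfl | h1, h2⟩
          · exact absurd (Or.inl rfl) h2
          · exact h1
      le_antisymm := by
        rintro x y (rfl | h1) (h2 | h2)
        · rfl
        · rfl
        · exact h2.symm
        · exfalso
          apply h.asymm h1
          rwa [neg_sub]
      le_total := by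
        intro x y
        by_cases hxy : x = y
        · exact Or.inl (Or.inl hxy)
        · rcases h.total (sub_ne_zero.2 hxy) with h1 | h1
          · exact Or.inr (Or.inr h1)
          · rw [neg_sub] at h1
            exact Or.inl (Or.inr h1)
      toDecidableLE := Classical.decRel _ }
  have hlt : ∀ x y : F, x < y ↔ Pos S (y - x) := fun x y => Iff.rfl
  have hle : ∀ x y : F, x ≤ y ↔ x = y ∨ Pos S (y - x) := fun x y => Iff.rfl
  have i1 : IsOrderedAddMonoid F := by
    refine ⟨fun a b hab c => ?_, fun a b hab c => ?_⟩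
    · rw [hle] at hab ⊢
      rcases hab with rfl | h1
      · exact Or.inl rfl
      · right
        rwa [add_sub_add_right_eq_sub]
    · rw [hle] at hab ⊢
      rcases hab with rfl | h1
      · exact Or.inl rfl
      · right
        rwa [add_sub_add_left_eq_sub]
  have i2 : ZeroLEOneClass F := by
    refine ⟨?_⟩
    rw [hle]
    right
    rw [sub_zero]
    exact Ordg.one
  have i3 : IsStrictOrderedRing F := by
    apply IsStrictOrderedRing.of_mul_pos
    intro a b ha hb
    rw [hlt, sub_zero] at ha hb ⊢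
    exact ha.mul hb
  refine ⟨o, i3, fun x => ?_⟩
  rw [hlt, sub_zero]

end

section

variable {F : Type} [Field F] [LinearOrder F] [IsStrictOrderedRing F] {A : Type} [CommGroup A]
  {φ : Fˣ →* A} {Nn : A → Subgroup A}

/-- the ball of an ordering in the kernel -/
lemma ord_ball (h : Nd φ Nn) (hi : Indec φ Nn) [Finite A] [Nontrivial A]
    (hS : ∀ u : Fˣ, φ u = 1 → 0 < (u : F)) :
    ∃ δ : F, 0 < δ ∧ δ < 1 ∧ ∀ x : F, |x| ≤ δ → ∃ z : Fˣ, (z : F) = 1 + x ∧ φ z = 1 := by
  have hinf : Infinite F := inferInstance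
  obtain ⟨E₁, hE, hd⟩ := h.dich hi {1}
  obtain ⟨u₀, -, hu₀⟩ := exists_small h.surj E₁ 1
  obtain ⟨u, hu, hu1⟩ : ∃ u : Fˣ, Sm φ E₁ u ∧ 0 < (u : F) := by
    rcases lt_or_gt_of_ne u₀.ne_zero with h1 | h1
    · exact ⟨-u₀, hu₀.neg, by rw [Units.val_neg]; exact neg_pos.2 h1⟩
    · exact ⟨u₀, hu₀, h1⟩
  have hsame : ∀ z x : Fˣ, φ z = φ x → 0 < (z : F) / x := by
    intro z x hzx
    rw [← Units.val_div_eq_div_val]
    apply hS
    rw [map_div, hzx, div_self']
  have key : ∀ x : F, |x| ≤ u → ∃ z : Fˣ, (z : F) = 1 + x ∧ φ z = 1 := by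
    intro x hx
    by_cases hx0 : x = 0
    · exact ⟨1, by rw [hx0, add_zero, Units.val_one], map_one _⟩
    obtain ⟨x', rfl⟩ : ∃ x' : Fˣ, (x' : F) = x := ⟨Units.mk0 _ hx0, Units.val_mk0 _⟩
    rcases hd x' with h1 | h1
    · obtain ⟨z, hz, hz1⟩ := (h1 1 (Finset.mem_singleton_self 1)).1
      exact ⟨z, by rw [hz, Units.val_one], by rw [hz1, map_one]⟩
    · exfalso
      rcases lt_or_gt_of_ne x'.ne_zero with h2 | h2
      · obtain ⟨z, hz, hz1⟩ := h1 u hu
        have h3 := hsame z x' hz1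
        rw [abs_of_neg h2] at hx
        have h4 : 0 ≤ (z : F) := by rw [hz]; linarith
        have h5 := div_nonpos_of_nonneg_of_nonpos h4 h2.le
        linarith
      · obtain ⟨z, hz, hz1⟩ := h1 (-u) hu.neg
        have h3 := hsame z x' hz1
        rw [abs_of_pos h2] at hx
        have h4 : (z : F) ≤ 0 := by rw [hz, Units.val_neg]; linarith
        have h5 := div_nonpos_of_nonpos_of_nonneg h4 h2.le
        linarith
  refine ⟨u, hu1, ?_, key⟩
  obtain ⟨z, hz, hz1⟩ := key (-u) (by rw [abs_neg, abs_of_pos hu1])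
  have := hS z hz1
  rw [hz] at this
  linarith

/-- the kernel is the positive cone or open for a valuation ring -/
lemma open_or_arch [Finite A] {δ : F} (hδ0 : 0 < δ) (hδ1 : δ < 1)
    (hS : ∀ u : Fˣ, φ u = 1 → 0 < (u : F))
    (hb : ∀ x : F, |x| ≤ δ → ∃ z : Fˣ, (z : F) = 1 + x ∧ φ z = 1) :
    (∃ (V : ValuationSubring F) (c : Fˣ), (c : F) ∈ V ∧ ((c⁻¹ : Fˣ) : F) ∉ V ∧
      ∀ v ∈ V, ∃ z : Fˣ, (z : F) = 1 + c * v ∧ φ z = 1) ∨ ∀ u : Fˣ, φ u = 1 ↔ 0 < (u : F) := by
  by_cases harch : Archimedean F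
  · right
    have key : ∀ u : Fˣ, 1 ≤ (u : F) → φ u = 1 := by
      intro u hu
      obtain ⟨n, hn1, hn2⟩ := exists_nat_pow_near hu (by linarith : 1 < 1 + δ)
      obtain ⟨r, hr⟩ : ∃ r : Fˣ, (r : F) = 1 + δ := ⟨Units.mk0 _ (by linarith), Units.val_mk0 _⟩
      have hr1 : φ r = 1 := by
        obtain ⟨z, hz, hz1⟩ := hb δ (by rw [abs_of_pos hδ0])
        rw [← hz1]
        congr 1
        ext
        rw [hr, hz]
      have hr0 : 0 < (r : F) ^ n := pow_pos (by rw [hr]; linarith) n
      rw [← hr] at hn1 hn2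
      obtain ⟨z, hz, hz1⟩ := hb ((u : F) / r ^ n - 1) (by
        rw [abs_of_nonneg (by rw [sub_nonneg, one_le_div₀ hr0]; exact hn1)]
        rw [sub_le_iff_le_add, add_comm δ 1, ← hr, div_le_iff₀ hr0, ← pow_succ']
        exact hn2.le)
      have e : u = r ^ n * z := by
        ext
        rw [Units.val_mul, Units.val_pow_eq_pow_val, hz]
        field_simp
        ring
      rw [e, map_mul, map_pow, hr1, hz1, one_pow, one_mul]
    intro u
    refine ⟨hS u, fun hu => ?_⟩
    rcases le_total 1 (u : F) with h1 | h1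
    · exact key u h1
    · have := key u⁻¹ (by
        rw [Units.val_inv_eq_inv_val]
        exact (one_le_inv₀ hu).2 h1)
      rwa [map_inv, inv_eq_one] at this
  · left
    have hx : ∃ x : F, ∀ n : ℕ, (n : F) < x := by
      by_contra hcon
      push Not at hcon
      apply harch
      rw [archimedean_iff_nat_le]
      exact hcon
    obtain ⟨x, hx⟩ := hx
    have hx0 : 0 < x := by have := hx 0; rwa [Nat.cast_zero] at this
    let V : ValuationSubring F :=
      { carrier := {y | ∃ n : ℕ, |y| ≤ n}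
        mul_mem' := by
          rintro a b ⟨n, hn⟩ ⟨m, hm⟩
          refine ⟨n * m, ?_⟩
          rw [abs_mul, Nat.cast_mul]
          exact mul_le_mul hn hm (abs_nonneg b) (Nat.cast_nonneg n)
        one_mem' := ⟨1, by simp⟩
        add_mem' := by
          rintro a b ⟨n, hn⟩ ⟨m, hm⟩
          refine ⟨n + m, ?_⟩
          rw [Nat.cast_add]
          exact (abs_add_le a b).trans (add_le_add hn hm)
        zero_mem' := ⟨0, by simp⟩
        neg_mem' := by
          rintro a ⟨n, hn⟩
          exact ⟨n, by rwa [abs_neg]⟩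
        mem_or_inv_mem' := by
          intro y
          rcases le_total |y| 1 with h1 | h1
          · exact Or.inl ⟨1, by rwa [Nat.cast_one]⟩
          · right
            refine ⟨1, ?_⟩
            rw [abs_inv, Nat.cast_one]
            exact inv_le_one_of_one_le₀ h1 }
    have hV : ∀ y : F, y ∈ V ↔ ∃ n : ℕ, |y| ≤ n := fun y => Iff.rfl
    obtain ⟨c, hc⟩ : ∃ c : Fˣ, (c : F) = δ / x := ⟨Units.mk0 _ (div_pos hδ0 hx0).ne', Units.val_mk0 _⟩
    have hc0 : 0 < (c : F) := by rw [hc]; exact div_pos hδ0 hx0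
    have hx1 : 1 < x := by have := hx 1; rwa [Nat.cast_one] at this
    refine ⟨V, c, ?_, ?_, ?_⟩
    · rw [hV]
      refine ⟨1, ?_⟩
      rw [abs_of_pos hc0, hc, Nat.cast_one, div_le_one₀ hx0]
      linarith
    · rw [hV]
      rintro ⟨n, hn⟩
      rw [Units.val_inv_eq_inv_val, abs_of_pos (inv_pos.2 hc0), hc, inv_div,
        div_le_iff₀ hδ0] at hn
      have h1 := hx n
      have h2 : (n : F) * δ ≤ n * 1 := mul_le_mul_of_nonneg_left hδ1.le (Nat.cast_nonneg n)
      linarith
    · intro v hv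
      rw [hV] at hv
      obtain ⟨n, hn⟩ := hv
      apply hb
      rw [abs_mul, abs_of_pos hc0, hc, div_mul_eq_mul_div, div_le_iff₀ hx0]
      exact mul_le_mul_of_nonneg_left (hn.trans (hx n).le) hδ0.le

end

section

variable {F : Type} [Field F] {A : Type} [CommGroup A] {φ : Fˣ →* A} {Nn : A → Subgroup A}

/-- the positive cone of a linear order -/
lemma ordg_of [LinearOrder F] [IsStrictOrderedRing F] {S : Subgroup Fˣ}
    (h : ∀ u : Fˣ, u ∈ S ↔ 0 < (u : F)) : Ordg S where
  neg := by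
    rw [h, Units.val_neg, Units.val_one]
    exact not_lt.2 (neg_nonpos.2 zero_le_one)
  tot := by
    intro u
    rw [h, h, Units.val_neg]
    rcases lt_or_gt_of_ne u.ne_zero with h1 | h1
    · exact Or.inr (neg_pos.2 h1)
    · exact Or.inl h1
  add := by
    intro u hu
    rw [h] at hu
    have : (0 : F) < 1 + u := add_pos zero_lt_one hu
    exact ⟨Units.mk0 _ this.ne', Units.val_mk0 _, by rw [h, Units.val_mk0]; exact this⟩

/-- a nondegenerate indecomposable system is open for a valuation or is an ordering -/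
theorem open_or_ord (h : Nd φ Nn) (hi : Indec φ Nn) [Infinite F] [Finite A] [Nontrivial A] {p : ℕ}
    (hp : p.Prime) (hkp : ∀ c : Fˣ, φ (c ^ p) = 1) :
    (∃ (V : ValuationSubring F) (c : Fˣ), (c : F) ∈ V ∧ ((c⁻¹ : Fˣ) : F) ∉ V ∧
      ∀ v ∈ V, ∃ z : Fˣ, (z : F) = 1 + c * v ∧ φ z = 1) ∨ (p = 2 ∧ Ordg φ.ker) := by
  rcases good_or_ord h.surj hp hkp with ⟨C, hC, hC1, hCa⟩ | ⟨hp2, S, hS, hle⟩
  · exact Or.inl (exists_open' h hi hC hC1 hCa)
  · obtain ⟨_, _, hpos⟩ := hS.lin
    have hS' : ∀ u : Fˣ, φ u = 1 → 0 < (u : F) := by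
      intro u hu
      rw [hpos]
      exact ⟨u, rfl, hle hu⟩
    obtain ⟨δ, hδ0, hδ1, hb⟩ := ord_ball h hi hS'
    rcases open_or_arch hδ0 hδ1 hS' hb with h1 | h1
    · exact Or.inl h1
    · exact Or.inr ⟨hp2, ordg_of fun u => by rw [MonoidHom.mem_ker, h1]⟩

end

end Pool.Agent.Helper58.EU
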