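import Mathlib
import Pool.Agent.Helper58.EU.Arch
import Pool.Agent.Helper58.ET.Dsc

set_option autoImplicit false

/-! Milnor `K₂` modulo a subgroup of the multiplicative group, without conditions on `-1`. -/

namespace Pool.Agent.Helper58.EU

open Pool.Agent.Y920.EP Pool.Agent.Helper58.ET Pool.Agent.Helper58.EB
open scoped TensorProduct

section

variable {F : Type} [Field F] {A : Type} [CommGroup A] {φ : Fˣ →* A}

lemma st_add {u v : Fˣ} (huv : (u : F) + v = 1) :
    Additive.ofMul (φ u) ⊗ₜ[ℤ] Additive.ofMul (φ v) ∈ St φ :=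
  AddSubgroup.subset_closure ⟨u, v, huv, rfl⟩

lemma st_neg (u : Fˣ) : Additive.ofMul (φ u) ⊗ₜ[ℤ] Additive.ofMul (φ (-u)) ∈ St φ := by
  by_cases hu : u = 1
  · rw [hu, map_one, ofMul_one, TensorProduct.zero_tmul]
    exact zero_mem _
  have h0 : (1 : F) - u ≠ 0 := by
    intro e
    apply hu
    ext
    rw [Units.val_one]
    linear_combination (-1) * e
  obtain ⟨v, hv⟩ : ∃ v : Fˣ, (v : F) = 1 - u := ⟨Units.mk0 _ h0, Units.val_mk0 _⟩
  have hu0 : (u : F) ≠ 0 := u.ne_zero
  have h1 := st_add (φ := φ) (u := u) (v := v) (by rw [hv]; ring)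
  have h2 := st_add (φ := φ) (u := u⁻¹) (v := v / (-u)) (by
    rw [Units.val_inv_eq_inv_val, Units.val_div_eq_div_val, Units.val_neg, hv]
    field_simp
    ring)
  have e : Additive.ofMul (φ u) ⊗ₜ[ℤ] Additive.ofMul (φ (-u)) =
      Additive.ofMul (φ u) ⊗ₜ[ℤ] Additive.ofMul (φ v) +
      Additive.ofMul (φ u⁻¹) ⊗ₜ[ℤ] Additive.ofMul (φ (v / (-u))) := by
    rw [map_inv, map_div, ofMul_inv, ofMul_div, TensorProduct.neg_tmul, TensorProduct.tmul_sub]
    abel
  rw [e]
  exact add_mem h1 h2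

lemma st_symm' (hφ : Function.Surjective φ) (a b : A) :
    Additive.ofMul a ⊗ₜ[ℤ] Additive.ofMul b + Additive.ofMul b ⊗ₜ[ℤ] Additive.ofMul a ∈ St φ := by
  obtain ⟨u, rfl⟩ := hφ a
  obtain ⟨v, rfl⟩ := hφ b
  have h1 := st_neg (φ := φ) (u * v)
  have h2 := st_neg (φ := φ) u
  have h3 := st_neg (φ := φ) v
  rw [phi_neg' φ (u * v), map_mul, ofMul_mul, ofMul_mul, ofMul_mul, TensorProduct.tmul_add,
    TensorProduct.add_tmul, TensorProduct.add_tmul, TensorProduct.tmul_add,
    TensorProduct.tmul_add] at h1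
  rw [phi_neg' φ u, ofMul_mul, TensorProduct.tmul_add] at h2
  rw [phi_neg' φ v, ofMul_mul, TensorProduct.tmul_add] at h3
  have h4 := sub_mem (sub_mem h1 h2) h3
  convert h4 using 1
  abel

/-- the system of the symbols -/
lemma nd_k2' (hφ : Function.Surjective φ)
    (hnd : ∀ a : A, (∀ b : A, Additive.ofMul a ⊗ₜ[ℤ] Additive.ofMul b ∈ St φ) → a = 1) :
    Nd φ (Ns φ) where
  surj := hφ
  symm := by
    intro a b hab
    rw [mem_Ns] at hab ⊢
    have h1 := sub_mem (st_symm' hφ a b) hab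
    rwa [add_sub_cancel_left] at h1
  sum := fun u v huv => st_add huv
  nd := by
    intro g hg
    apply hnd
    intro b
    have h1 := sub_mem (st_symm' hφ g b) (hg b)
    rwa [add_sub_cancel_right] at h1

/-- orderings -/
def LfR (φ : Fˣ →* A) (p : ℕ) (L : Subgroup A) : Prop := p = 2 ∧ Ordg (L.comap φ)

/-- there is a decomposition into local blocks -/
def Dec (φ : Fˣ →* A) (p : ℕ) (ζ : Fˣ) : Prop :=
  ∃ (I : Type) (_ : Finite I) (L : I → Subgroup A),
    (∀ a : I → A, ∃ y : A, ∀ i, y / a i ∈ L i) ∧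
    (∀ a : A, (∀ i, a ∈ L i) → a = 1) ∧
    (∀ x, (∀ i, x ∈ St φ ⊔ Lt (L i)) → x ∈ St φ) ∧
    ∀ i, (∃ O, LfA φ p (L i) O) ∨ (∃ O, LfB φ p ζ (L i) O) ∨ LfR φ p (L i)

variable {p : ℕ} {ζ : Fˣ}

/-- the components of a splitting are nondegenerate -/
lemma nd_comp' (h : Nd φ (Ns φ)) {H K : Subgroup A}
    (horth : ∀ a ∈ H, ∀ k ∈ K, k ∈ Ns φ a)
    (π : A →* H) (ρ : A →* K) (h1 : ∀ a : A, a = π a * ρ a) (h2 : ∀ h : H, π h = h)
    (h3 : ∀ x ∈ St (π.comp φ), tmap H.subtype x ∈ St φ) :
    Nd (π.comp φ) (Ns (π.comp φ)) := by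
  refine nd_k2' ?_ ?_
  · intro a
    obtain ⟨u, hu⟩ := h.surj (a : A)
    exact ⟨u, by rw [MonoidHom.comp_apply, hu, h2]⟩
  · intro a ha
    have h4 : (a : A) = 1 := by
      apply h.nd
      intro b
      apply h.symm
      rw [mem_Ns, h1 b, ofMul_mul, TensorProduct.tmul_add]
      refine add_mem ?_ ?_
      · exact h3 _ (ha (π b))
      · exact horth a a.2 _ (ρ b).2
    exact Subtype.ext h4

/-- relations of a component of a splitting -/
lemma st_comp' {H K : Subgroup A}
    (π : A →* H) (ρ : A →* K) (h1 : ∀ a : A, a = π a * ρ a)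
    (hpr : ∀ u v : Fˣ, (u : F) + v = 1 → ∀ h ∈ H, ∀ k ∈ K, ∀ h' ∈ H, ∀ k' ∈ K,
      φ u = h * k → φ v = h' * k' → h' ∈ Ns φ h) :
    ∀ x ∈ St (π.comp φ), tmap H.subtype x ∈ St φ := by
  intro x hx
  refine map_closure_le _ ?_ hx
  rintro _ ⟨u, v, huv, rfl⟩
  rw [tmap_tmul]
  exact hpr u v huv _ (π (φ u)).2 _ (ρ (φ u)).2 _ (π (φ v)).2 _ (ρ (φ v)).2 (h1 _) (h1 _)

/-- decompositions of the components give a decomposition -/
lemma dec_split' (h : Nd φ (Ns φ)) {H K : Subgroup A} (hS : Split φ (Ns φ) H K)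
    (π : A →* H) (ρ : A →* K) (h1 : ∀ a : A, a = π a * ρ a) (h2 : ∀ h : H, π h = h)
    (h3 : ∀ h : H, ρ (h : A) = 1) (h4 : ∀ k : K, π (k : A) = 1) (h5 : ∀ k : K, ρ k = k)
    (hH : Dec (π.comp φ) p ζ) (hK : Dec (ρ.comp φ) p ζ) : Dec φ p ζ := by
  obtain ⟨I, _, L, a1, a2, a3, a4⟩ := hH
  obtain ⟨J, _, M, b1, b2, b3, b4⟩ := hK
  have hHst := st_comp' π ρ h1 (fun u v huv a ha k hk a' ha' k' hk' hu hv =>
    (hS.pr u v huv a ha k hk a' ha' k' hk' hu hv).1)
  have hKst := st_comp' (H := K) (K := H) ρ π (fun a => by rw [mul_comm]; exact h1 a)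
    (fun u v huv a ha k hk a' ha' k' hk' hu hv =>
      (hS.pr u v huv k hk a ha k' hk' a' ha' (by rw [mul_comm]; exact hu)
        (by rw [mul_comm]; exact hv)).2)
  refine ⟨I ⊕ J, inferInstance, Sum.elim (fun i => (L i).comap π) (fun j => (M j).comap ρ),
    ?_, ?_, ?_, ?_⟩
  · intro a
    obtain ⟨y, hy⟩ := a1 fun i => π (a (Sum.inl i))
    obtain ⟨z, hz⟩ := b1 fun j => ρ (a (Sum.inr j))
    refine ⟨y * z, ?_⟩
    rintro (i | j)
    · rw [Sum.elim_inl, Subgroup.mem_comap, map_div, map_mul, h2, h4, mul_one]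
      exact hy i
    · rw [Sum.elim_inr, Subgroup.mem_comap, map_div, map_mul, h3, h5, one_mul]
      exact hz j
  · intro a ha
    rw [h1 a, a2 (π a) fun i => ha (Sum.inl i), b2 (ρ a) fun j => ha (Sum.inr j)]
    simp
  · intro x hx
    have hx1 : tmap H.subtype (tmap π x) ∈ St φ :=
      hHst _ (a3 _ fun i => sup_map (hx (Sum.inl i)))
    have hx2 : tmap K.subtype (tmap ρ x) ∈ St φ :=
      hKst _ (b3 _ fun j => sup_map (hx (Sum.inr j)))
    -- the difference of `x` and its components is a relation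
    have hx3 : ∀ x : Additive A ⊗[ℤ] Additive A,
        x - (tmap H.subtype (tmap π x) + tmap K.subtype (tmap ρ x)) ∈ St φ := by
      intro x
      induction x using TensorProduct.induction_on with
      | zero => simp
      | tmul a b =>
        have key : ∀ a b : A, Additive.ofMul a ⊗ₜ[ℤ] Additive.ofMul b -
            (tmap H.subtype (tmap π (Additive.ofMul a ⊗ₜ[ℤ] Additive.ofMul b)) +
              tmap K.subtype (tmap ρ (Additive.ofMul a ⊗ₜ[ℤ] Additive.ofMul b))) ∈ St φ := by
          intro a b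
          have e1 : Additive.ofMul a ⊗ₜ[ℤ] Additive.ofMul b =
              (Additive.ofMul (π a : A) ⊗ₜ[ℤ] Additive.ofMul (π b : A) +
                Additive.ofMul (π a : A) ⊗ₜ[ℤ] Additive.ofMul (ρ b : A)) +
              (Additive.ofMul (ρ a : A) ⊗ₜ[ℤ] Additive.ofMul (π b : A) +
                Additive.ofMul (ρ a : A) ⊗ₜ[ℤ] Additive.ofMul (ρ b : A)) := by
            rw [← TensorProduct.tmul_add, ← TensorProduct.tmul_add, ← ofMul_mul, ← h1 b,
              ← TensorProduct.add_tmul, ← ofMul_mul, ← h1 a]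
          rw [tmap_tmul, tmap_tmul, tmap_tmul, tmap_tmul, e1]
          simp only [Subgroup.coe_subtype]
          have h6 : Additive.ofMul (π a : A) ⊗ₜ[ℤ] Additive.ofMul (ρ b : A) ∈ St φ :=
            hS.orth _ (π a).2 _ (ρ b).2
          have h7 : Additive.ofMul (ρ a : A) ⊗ₜ[ℤ] Additive.ofMul (π b : A) ∈ St φ :=
            h.symm _ _ (hS.orth _ (π b).2 _ (ρ a).2)
          have h8 := add_mem h6 h7
          convert h8 using 1
          abel
        exact key (Additive.toMul a) (Additive.toMul b)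
      | add a b ha hb =>
        have := add_mem ha hb
        rw [map_add, map_add, map_add, map_add]
        convert this using 1
        abel
    have hx4 := add_mem (hx3 x) (add_mem hx1 hx2)
    rwa [sub_add_cancel] at hx4
  · rintro (i | j)
    · rcases a4 i with ⟨O, hO⟩ | ⟨O, hO⟩ | hO
      · exact Or.inl ⟨O, lfA_map hO⟩
      · exact Or.inr (Or.inl ⟨O, lfB_map hO⟩)
      · exact Or.inr (Or.inr hO)
    · rcases b4 j with ⟨O, hO⟩ | ⟨O, hO⟩ | hO
      · exact Or.inl ⟨O, lfA_map hO⟩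
      · exact Or.inr (Or.inl ⟨O, lfB_map hO⟩)
      · exact Or.inr (Or.inr hO)

/-! ### residue fields -/

variable {O : ValuationSubring F}

lemma neg_res' {ψ : (IsLocalRing.ResidueField O)ˣ →* AU φ O}
    (hψ : ∀ u : O.unitGroup, (ψ (O.unitGroupToResidueFieldUnits u) : A) = φ u) :
    (AU φ O).subtype.comp ψ (-1) = φ (-1) := by
  have h1 : O.valuation ((-1 : Fˣ) : F) = 1 := by
    rw [Units.val_neg, Units.val_one, Valuation.map_neg, map_one]
  obtain ⟨w, hw, hw1⟩ := class_res hψ h1
  rw [← hw1]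
  congr 1
  ext
  rw [hw, Units.val_neg, Units.val_one]
  have e : (⟨((-1 : Fˣ) : F), val_one_mem O h1⟩ : O) = -1 := by
    ext
    change ((-1 : Fˣ) : F) = -1
    rw [Units.val_neg, Units.val_one]
  rw [e, map_neg, map_one]

/-- the relations over the residue field -/
lemma st_res'' (hC : Cmp φ O)
    {ψ : (IsLocalRing.ResidueField O)ˣ →* AU φ O}
    (hψ : ∀ u : O.unitGroup, (ψ (O.unitGroupToResidueFieldUnits u) : A) = φ u)
    (hsurj : Function.Surjective ((AU φ O).subtype.comp ψ)) :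
    St ((AU φ O).subtype.comp ψ) = St φ := by
  apply le_antisymm
  · unfold St
    rw [AddSubgroup.closure_le]
    rintro _ ⟨u, v, huv, rfl⟩
    obtain ⟨u', hu', hres, hc⟩ := exists_lift hψ u
    have huO := val_one_mem O hu'
    have h1 : (1 : F) + -(u' : F) ∈ O := O.add_mem _ _ O.one_mem (O.neg_mem _ huO)
    have h2 : IsLocalRing.residue O ⟨1 + -(u' : F), h1⟩ = v := by
      rw [res_one_add (O.neg_mem _ huO)]
      have e : (⟨-(u' : F), O.neg_mem _ huO⟩ : O) = -⟨(u' : F), huO⟩ := rfl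
      rw [e, map_neg, hres, ← huv]
      ring
    have h3 : O.valuation (1 + -(u' : F)) = 1 := valuation_eq_one_of O ⟨_, h1⟩ (by
      rw [h2]; exact v.ne_zero)
    have h4 : (1 : F) + -(u' : F) ≠ 0 := by
      intro e
      rw [e, map_zero] at h3
      exact zero_ne_one h3
    obtain ⟨v', hv'⟩ : ∃ v' : Fˣ, (v' : F) = 1 + -(u' : F) := ⟨Units.mk0 _ h4, Units.val_mk0 _⟩
    have hv'1 : O.valuation (v' : F) = 1 := by rw [hv']; exact h3
    obtain ⟨w, hw, hw1⟩ := class_res hψ hv'1
    have hwv : w = v := by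
      ext
      rw [hw, ← h2]
      congr 1
      ext
      exact hv'
    rw [← hc, ← hwv, hw1]
    exact AddSubgroup.subset_closure ⟨u', v', by rw [hv']; ring, rfl⟩
  · conv_lhs => unfold St
    rw [AddSubgroup.closure_le]
    rintro _ ⟨u, v, huv, rfl⟩
    rcases lt_trichotomy (O.valuation (u : F)) 1 with h1 | h1 | h1
    · obtain ⟨z, hz, hz1⟩ := hC (-(u : F)) (by rw [Valuation.map_neg]; exact h1)
      have e : v = z := by
        ext
        rw [hz]
        linear_combination huv
      rw [e, hz1, ofMul_one, TensorProduct.tmul_zero]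
      exact zero_mem _
    · have huO := val_one_mem O h1
      have hvO : (v : F) ∈ O := by
        have e : (v : F) = 1 - u := by linear_combination huv
        rw [e]
        exact O.toSubring.sub_mem O.one_mem huO
      rcases ((O.valuation_le_one_iff _).2 hvO).lt_or_eq with h2 | h2
      · obtain ⟨z, hz, hz1⟩ := hC (-(v : F)) (by rw [Valuation.map_neg]; exact h2)
        have e : u = z := by
          ext
          rw [hz]
          linear_combination huv
        rw [e, hz1, ofMul_one, TensorProduct.zero_tmul]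
        exact zero_mem _
      · obtain ⟨a, ha, ha1⟩ := class_res hψ h1
        obtain ⟨b, hb, hb1⟩ := class_res hψ h2
        rw [← ha1, ← hb1]
        apply AddSubgroup.subset_closure
        refine ⟨a, b, ?_, rfl⟩
        rw [ha, hb, ← map_add, ← map_one (IsLocalRing.residue O)]
        congr 1
        ext
        exact huv
    · obtain ⟨z, hz, hz1⟩ := hC (-(u : F)⁻¹) (by
        rw [Valuation.map_neg, map_inv₀]
        exact inv_lt_one_of_one_lt₀ h1)
      have e1 : v = (-u) * z := by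
        ext
        have hu0 : (u : F) ≠ 0 := u.ne_zero
        rw [Units.val_mul, Units.val_neg, hz]
        field_simp
        linear_combination huv
      obtain ⟨x, hx⟩ := hsurj (φ u)
      have h3 := st_neg (φ := (AU φ O).subtype.comp ψ) x
      rw [phi_neg' _ x, neg_res' hψ, hx, ← phi_neg' φ u] at h3
      rw [e1, map_mul, hz1, mul_one]
      exact h3

/-- decompositions over the residue field -/
lemma dec_res' (hO : EB.Gd φ p O)
    {ψ : (IsLocalRing.ResidueField O)ˣ →* AU φ O}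
    (hψ : ∀ u : O.unitGroup, (ψ (O.unitGroupToResidueFieldUnits u) : A) = φ u)
    (hsurj : Function.Surjective ((AU φ O).subtype.comp ψ))
    {ξ : (IsLocalRing.ResidueField O)ˣ} (hζv : O.valuation (ζ : F) = 1)
    (hξ : IsLocalRing.residue O ⟨ζ, val_one_mem O hζv⟩ = ξ)
    (hζ1 : O.valuation (1 - (ζ : F)) = 1)
    (h : Dec ((AU φ O).subtype.comp ψ) p ξ) : Dec φ p ζ := by
  obtain ⟨I, hI, L, a1, a2, a3, a4⟩ := h
  have hst := st_res'' hO.cmp hψ hsurj
  refine ⟨I, hI, L, a1, a2, ?_, ?_⟩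
  · rw [hst] at a3
    exact a3
  · intro i
    rcases a4 i with ⟨O₁, hO₁⟩ | ⟨O₁, hO₁⟩ | ⟨hp2, hO₁⟩
    · exact Or.inl (lfA_comp hO hψ hO₁)
    · exact Or.inr (Or.inl (lfB_comp hO hψ hζv hξ hζ1 hO₁))
    · refine Or.inr (Or.inr ⟨hp2, ?_, ?_, ?_⟩)
      · have := hO₁.neg
        rw [Subgroup.mem_comap, neg_res' hψ] at this
        exact this
      · intro u
        obtain ⟨x, hx⟩ := hsurj (φ u)
        rcases hO₁.tot x with h1 | h1
        · left
          rw [Subgroup.mem_comap, hx] at h1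
          exact h1
        · right
          rw [Subgroup.mem_comap, phi_neg' _ x, neg_res' hψ, hx, ← phi_neg' φ u] at h1
          exact h1
      · intro u hu
        rw [Subgroup.mem_comap] at hu
        rcases lt_trichotomy (O.valuation (u : F)) 1 with h1 | h1 | h1
        · obtain ⟨z, hz, hz1⟩ := hO.cmp (u : F) h1
          exact ⟨z, hz, by rw [Subgroup.mem_comap, hz1]; exact one_mem _⟩
        · obtain ⟨a, ha, ha1⟩ := class_res hψ h1
          obtain ⟨b, hb, hb1⟩ := hO₁.add a (by rw [Subgroup.mem_comap, ha1]; exact hu)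
          have huO := val_one_mem O h1
          have h2 : (1 : F) + (u : F) ∈ O := O.add_mem _ _ O.one_mem huO
          have h3 : IsLocalRing.residue O ⟨1 + (u : F), h2⟩ = b := by
            rw [res_one_add huO, hb, ha]
          have h4 : O.valuation (1 + (u : F)) = 1 := valuation_eq_one_of O ⟨_, h2⟩ (by
            rw [h3]; exact b.ne_zero)
          have h5 : (1 : F) + (u : F) ≠ 0 := by
            intro e
            rw [e, map_zero] at h4
            exact zero_ne_one h4
          obtain ⟨z, hz⟩ : ∃ z : Fˣ, (z : F) = 1 + (u : F) := ⟨Units.mk0 _ h5, Units.val_mk0 _⟩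
          obtain ⟨w, hw, hw1⟩ := class_res hψ (u := z) (by rw [hz]; exact h4)
          refine ⟨z, hz, ?_⟩
          have hwb : w = b := by
            ext
            rw [hw, ← h3]
            congr 1
            ext
            exact hz
          rw [Subgroup.mem_comap, ← hw1, hwb]
          exact hb1
        · obtain ⟨z, hz, hz1⟩ := hO.cmp (u : F)⁻¹ (by
            rw [map_inv₀]
            exact inv_lt_one_of_one_lt₀ h1)
          refine ⟨u * z, ?_, ?_⟩
          · have hu0 : (u : F) ≠ 0 := u.ne_zero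
            rw [Units.val_mul, hz]
            field_simp
            ring
          · rw [Subgroup.mem_comap, map_mul, hz1, mul_one]
            exact hu

end

end Pool.Agent.Helper58.EU
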