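import Mathlib
import Pool.Agent.Helper58.EU.K2

set_option autoImplicit false

/-! Wild leaves: the relations of degree two. -/

namespace Pool.Agent.Helper58.ET

open Pool.Agent.Y920.EP Pool.Agent.Helper58.EB Pool.Agent.Helper58.EU
open scoped TensorProduct

section

variable {F : Type} [Field F] {A : Type} [CommGroup A]

/-- symbols -/
noncomputable def sy (φ : Fˣ →* A) (u v : Fˣ) : Additive A ⊗[ℤ] Additive A :=
  Additive.ofMul (φ u) ⊗ₜ[ℤ] Additive.ofMul (φ v)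

variable {φ : Fˣ →* A}

lemma sy_mul_left (u u' v : Fˣ) : sy φ (u * u') v = sy φ u v + sy φ u' v := by
  unfold sy
  rw [map_mul, ofMul_mul, TensorProduct.add_tmul]

lemma sy_mul_right (u v v' : Fˣ) : sy φ u (v * v') = sy φ u v + sy φ u v' := by
  unfold sy
  rw [map_mul, ofMul_mul, TensorProduct.tmul_add]

lemma sy_one_left {u : Fˣ} (hu : φ u = 1) (v : Fˣ) : sy φ u v = 0 := by
  unfold sy
  rw [hu, ofMul_one, TensorProduct.zero_tmul]

lemma sy_one_right {v : Fˣ} (hv : φ v = 1) (u : Fˣ) : sy φ u v = 0 := by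
  unfold sy
  rw [hv, ofMul_one, TensorProduct.tmul_zero]

lemma sy_pow_left (n : ℕ) (u v : Fˣ) : sy φ (u ^ n) v = n • sy φ u v := by
  induction n with
  | zero => rw [pow_zero, sy_one_left (map_one _), zero_smul]
  | succ n ih => rw [pow_succ, sy_mul_left, ih, succ_nsmul]

lemma sy_pow_right (n : ℕ) (u v : Fˣ) : sy φ u (v ^ n) = n • sy φ u v := by
  induction n with
  | zero => rw [pow_zero, sy_one_right (map_one _), zero_smul]
  | succ n ih => rw [pow_succ, sy_mul_right, ih, succ_nsmul]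

lemma sy_inv_left (u v : Fˣ) : sy φ u⁻¹ v = - sy φ u v := by
  rw [eq_neg_iff_add_eq_zero, ← sy_mul_left, inv_mul_cancel]
  exact sy_one_left (map_one _) _

lemma sy_zpow_left (n : ℤ) (u v : Fˣ) : sy φ (u ^ n) v = n • sy φ u v := by
  rcases Int.eq_nat_or_neg n with ⟨m, rfl | rfl⟩
  · rw [zpow_natCast, sy_pow_left, natCast_zsmul]
  · rw [zpow_neg, zpow_natCast, sy_inv_left, sy_pow_left, neg_smul, natCast_zsmul]

/-- antisymmetry -/
lemma sy_anti (hφ : Function.Surjective φ)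
    {S : AddSubgroup (Additive A ⊗[ℤ] Additive A)} (hS : St φ ≤ S) {u v : Fˣ}
    (h : sy φ u v ∈ S) : sy φ v u ∈ S := by
  have h1 := S.sub_mem (hS (st_symm' hφ (φ u) (φ v))) h
  unfold sy at h1 ⊢
  rwa [add_sub_cancel_left] at h1

/-- the identity for symbols of one-units -/
lemma ident (hφ : Function.Surjective φ) {α β u w z : Fˣ}
    (hu : (u : F) = 1 + α) (hw : (w : F) = 1 + β) (hz : (z : F) = 1 + α * β / u) :
    sy φ u w - (sy φ (-α) z + sy φ w z) ∈ St φ := by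
  have hu0 : (u : F) ≠ 0 := u.ne_zero
  have h1 : sy φ (-α * w) (u * z) ∈ St φ := by
    apply st_add
    rw [Units.val_mul, Units.val_mul, Units.val_neg, hz, hw]
    field_simp
    rw [hu]
    ring
  have h2 : sy φ (-α) u ∈ St φ := st_add (by rw [hu, Units.val_neg]; ring)
  have h3 : sy φ u w + sy φ w u ∈ St φ := st_symm' hφ (φ u) (φ w)
  rw [sy_mul_left, sy_mul_right, sy_mul_right] at h1
  have h4 := sub_mem h3 (sub_mem h1 h2)
  convert h4 using 1
  abel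

variable {p : ℕ} {ζ : Fˣ} {O : ValuationSubring F} {ϖ : Fˣ} {e : ℕ} {g : Fˣ}

lemma Dsc.le_succ (D : Dsc φ p ζ O ϖ e g) {x : F} {i : ℕ}
    (h : O.valuation x < O.valuation (ϖ : F) ^ i) :
    O.valuation x ≤ O.valuation (ϖ : F) ^ (i + 1) := by
  have h0 : 0 < O.valuation (ϖ : F) ^ i := pow_pos (val_pos O _) i
  have h1 := D.mx (x / ϖ ^ i) (by
    rw [map_div₀, map_pow, div_lt_one₀ h0]
    exact h)
  rw [map_div₀, map_pow, div_le_iff₀ h0] at h1
  rw [pow_succ, mul_comm]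
  exact h1

lemma Dsc.lt_pow (D : Dsc φ p ζ O ϖ e g) {x : F} {i : ℕ}
    (h : O.valuation x ≤ O.valuation (ϖ : F) ^ (i + 1)) :
    O.valuation x < O.valuation (ϖ : F) ^ i := by
  refine h.trans_lt ?_
  rw [pow_succ]
  exact mul_lt_of_lt_one_right (pow_pos (val_pos O _) i) D.pv

/-- units are one-units up to `p`-th powers -/
lemma Dsc.decU (hp : p.Prime) (D : Dsc φ p ζ O ϖ e g) {w : Fˣ} (hw : O.valuation (w : F) = 1) :
    ∃ f u : Fˣ, w = f ^ p * u ∧ O.valuation ((u : F) - 1) < 1 := by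
  obtain ⟨b, hb, hwb⟩ := D.pf w hw.le
  have hb1 : O.valuation b = 1 := by
    by_contra hcon
    have h1 : O.valuation (b ^ p) < 1 := by
      rw [map_pow]
      exact pow_lt_one₀ zero_le (lt_of_le_of_ne hb hcon) hp.ne_zero
    have h2 := Valuation.map_add_lt _ hwb h1
    rw [sub_add_cancel, hw] at h2
    exact lt_irrefl _ h2
  have hb0 : b ≠ 0 := by
    rintro rfl
    rw [map_zero] at hb1
    exact zero_ne_one hb1
  refine ⟨Units.mk0 b hb0, w / (Units.mk0 b hb0) ^ p, by rw [mul_div_cancel], ?_⟩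
  rw [Units.val_div_eq_div_val, Units.val_pow_eq_pow_val, Units.val_mk0,
    div_sub_one (pow_ne_zero _ hb0), map_div₀, map_pow, hb1, one_pow, div_one]
  exact hwb

/-- every element is a power of the uniformizer times a unit -/
lemma Dsc.decF (D : Dsc φ p ζ O ϖ e g) (f : Fˣ) :
    ∃ (n : ℤ) (w : Fˣ), f = ϖ ^ n * w ∧ O.valuation (w : F) = 1 := by
  obtain ⟨n, hn⟩ := D.zp f
  refine ⟨n, f / ϖ ^ n, by rw [mul_div_cancel], ?_⟩
  rw [Units.val_div_eq_div_val, map_div₀, Units.val_zpow_eq_zpow_val, map_zpow₀, hn, div_self]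
  exact zpow_ne_zero _ (val_ne O ϖ)

variable (hφ : Function.Surjective φ) (hp : p.Prime)
  (hkp : ∀ c : Fˣ, φ (c ^ p) = 1) (hζ : IsPrimitiveRoot ζ p)
  {S : AddSubgroup (Additive A ⊗[ℤ] Additive A)} (hS : St φ ≤ S)

include hφ hS in
/-- symbols of one-units have higher level -/
lemma Dsc.step (D : Dsc φ p ζ O ϖ e g) {i : ℕ}
    (h : ∀ f u : Fˣ, O.valuation ((u : F) - 1) ≤ O.valuation (ϖ : F) ^ (i + 1) → sy φ f u ∈ S)
    {u w : Fˣ} (hu : O.valuation ((u : F) - 1) < 1)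
    (hw : O.valuation ((w : F) - 1) ≤ O.valuation (ϖ : F) ^ i) : sy φ u w ∈ S := by
  by_cases hu1 : u = 1
  · rw [hu1, sy_one_left (map_one _)]
    exact S.zero_mem
  by_cases hw1 : w = 1
  · rw [hw1, sy_one_right (map_one _)]
    exact S.zero_mem
  have hα : (u : F) - 1 ≠ 0 := fun e => hu1 (Units.ext (by rw [Units.val_one]; linear_combination e))
  have hβ : (w : F) - 1 ≠ 0 := fun e => hw1 (Units.ext (by rw [Units.val_one]; linear_combination e))
  obtain ⟨α, hα'⟩ : ∃ α : Fˣ, (α : F) = (u : F) - 1 := ⟨Units.mk0 _ hα, Units.val_mk0 _⟩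
  obtain ⟨β, hβ'⟩ : ∃ β : Fˣ, (β : F) = (w : F) - 1 := ⟨Units.mk0 _ hβ, Units.val_mk0 _⟩
  have hu2 : O.valuation (u : F) = 1 := by
    have := val_one_add O hu
    rwa [add_sub_cancel] at this
  have h1 : O.valuation ((α : F) * β / u) ≤ O.valuation (ϖ : F) ^ (i + 1) := by
    rw [map_div₀, hu2, div_one, map_mul, hα', hβ', pow_succ, mul_comm]
    exact mul_le_mul' hw (D.mx _ hu)
  have h2 : O.valuation ((α : F) * β / u) < 1 :=
    h1.trans_lt (pow_lt_one₀ zero_le D.pv (Nat.succ_ne_zero i))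
  obtain ⟨z, hz, -⟩ := exists_unit_one_add O h2
  have h3 := hS (ident hφ (u := u) (w := w) (α := α) (β := β) (z := z)
    (by rw [hα']; ring) (by rw [hβ']; ring) hz)
  have hz' : O.valuation ((z : F) - 1) ≤ O.valuation (ϖ : F) ^ (i + 1) := by
    rw [hz, add_sub_cancel_left]
    exact h1
  have h4 := S.add_mem h3 (S.add_mem (h (-α) z hz') (h w z hz'))
  rwa [sub_add_cancel] at h4

include hφ hS hp hkp in
lemma Dsc.step' (D : Dsc φ p ζ O ϖ e g) {i : ℕ}
    (h : ∀ f u : Fˣ, O.valuation ((u : F) - 1) ≤ O.valuation (ϖ : F) ^ (i + 1) → sy φ f u ∈ S)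
    {u w : Fˣ} (hu : O.valuation (u : F) = 1)
    (hw : O.valuation ((w : F) - 1) ≤ O.valuation (ϖ : F) ^ i) : sy φ u w ∈ S := by
  obtain ⟨f, u₁, rfl, hu₁⟩ := D.decU hp hu
  rw [sy_mul_left, sy_one_left (hkp f), zero_add]
  exact D.step hφ hS h hu₁ hw

lemma Dsc.lamp (D : Dsc φ p ζ O ϖ e g) :
    O.valuation (1 - (ζ : F)) ^ p = O.valuation (ϖ : F) ^ (e * p) := by
  rw [D.lam, ← pow_mul]

/-- elements of high level have trivial class -/
lemma Dsc.high (D : Dsc φ p ζ O ϖ e g) {u : Fˣ}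
    (hu : O.valuation ((u : F) - 1) ≤ O.valuation (ϖ : F) ^ (e * p + 1)) : φ u = 1 := by
  have h1 := D.lt_pow hu
  rw [← D.lamp] at h1
  obtain ⟨z, hz, hz1⟩ := D.one _ h1
  rw [← hz1]
  congr 1
  ext
  rw [hz]
  ring

lemma Dsc.high' (D : Dsc φ p ζ O ϖ e g) {x : F} {u : Fˣ}
    (hx : O.valuation x < O.valuation (1 - (ζ : F)) ^ p) (hu : (u : F) = 1 + x) : φ u = 1 := by
  obtain ⟨z, hz, hz1⟩ := D.one _ hx
  rw [← hz1]
  congr 1
  ext
  rw [hz, hu]

include hkp in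
/-- the classes of level `e p` -/
lemma Dsc.gen' (D : Dsc φ p ζ O ϖ e g) {u : Fˣ}
    (hu : O.valuation ((u : F) - 1) ≤ O.valuation (ϖ : F) ^ (e * p)) :
    ∃ n : ℕ, φ u = φ (g ^ n) := by
  rw [← D.lamp] at hu
  obtain ⟨n, f, x, hx, h⟩ := D.gen u hu
  have hl : O.valuation (1 - (ζ : F)) ^ p ≤ 1 := by
    rw [D.lamp]
    exact pow_le_one₀ zero_le D.pv.le
  obtain ⟨z, hz, -⟩ := exists_unit_one_add O (hx.trans_le hl)
  refine ⟨n, ?_⟩
  have e1 : u = g ^ n * f ^ p * z := by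
    ext
    rw [h, Units.val_mul, Units.val_mul, Units.val_pow_eq_pow_val, Units.val_pow_eq_pow_val, hz]
  rw [e1, map_mul, map_mul, hkp, D.high' hx hz, mul_one, mul_one]

include hp hζ in
/-- raising the level -/
lemma Dsc.raise (D : Dsc φ p ζ O ϖ e g) {j : ℕ} (hj : j < e) {u : Fˣ} (hj0 : 0 < j)
    (hu : O.valuation ((u : F) - 1) ≤ O.valuation (ϖ : F) ^ (j * p)) :
    ∃ f u' : Fˣ, u = f ^ p * u' ∧
      O.valuation ((u' : F) - 1) ≤ O.valuation (ϖ : F) ^ (j * p + 1) := by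
  have hϖ0 : (ϖ : F) ≠ 0 := ϖ.ne_zero
  have hϖj : (ϖ : F) ^ j ≠ 0 := pow_ne_zero _ hϖ0
  have hϖp : (ϖ : F) ^ (j * p) ≠ 0 := pow_ne_zero _ hϖ0
  have h0 : 0 < O.valuation (ϖ : F) ^ (j * p) := pow_pos (val_pos O _) _
  obtain ⟨a, ha⟩ : ∃ a : F, (u : F) = 1 + a * ϖ ^ (j * p) :=
    ⟨((u : F) - 1) / ϖ ^ (j * p), by rw [div_mul_cancel₀ _ hϖp]; ring⟩
  have hav : O.valuation a ≤ 1 := by
    rw [ha, add_sub_cancel_left, map_mul, map_pow] at hu
    exact (mul_le_iff_le_one_left h0).1 hu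
  obtain ⟨b, hb, hab⟩ := D.pf a hav
  have hbϖ : O.valuation (b * ϖ ^ j) < 1 := by
    rw [map_mul, map_pow, mul_comm]
    exact mul_lt_one_of_nonneg_of_lt_one_left zero_le
      (pow_lt_one₀ zero_le D.pv hj0.ne') hb
  obtain ⟨f, hf, hf1⟩ := exists_unit_one_add O hbϖ
  have hfp0 : (f : F) ^ p ≠ 0 := pow_ne_zero _ f.ne_zero
  obtain ⟨r, hr, h⟩ := expand_val hp O hbϖ.le
  rw [← hf] at h
  refine ⟨f, u / f ^ p, by rw [mul_div_cancel], ?_⟩
  rw [Units.val_div_eq_div_val, Units.val_pow_eq_pow_val, div_sub_one hfp0, map_div₀, map_pow, hf1,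
    one_pow, div_one, h, ha]
  have e1 : (1 : F) + a * ϖ ^ (j * p) - (1 + (b * ϖ ^ j) ^ p + p * (b * ϖ ^ j) *
      (1 + b * ϖ ^ j * r)) = (a - b ^ p) * ϖ ^ (j * p) - p * (b * ϖ ^ j) *
      (1 + b * ϖ ^ j * r) := by
    rw [mul_pow, ← pow_mul]
    ring
  rw [e1]
  refine (Valuation.map_sub _ _ _).trans (max_le ?_ ?_)
  · rw [map_mul, map_pow, pow_succ, mul_comm]
    exact mul_le_mul_right (D.mx _ hab) _
  · rw [map_mul, map_mul, map_mul, map_pow, val_p hp hζ O, D.lam, ← pow_mul]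
    have h1 : O.valuation (1 + b * ϖ ^ j * r) ≤ 1 := by
      refine Valuation.map_add_le _ (by rw [map_one]) ?_
      rw [map_mul]
      exact mul_le_one₀ hbϖ.le zero_le hr
    have h2 : O.valuation (ϖ : F) ^ (e * (p - 1)) * (O.valuation b * O.valuation (ϖ : F) ^ j) *
        O.valuation (1 + b * ϖ ^ j * r) ≤
        O.valuation (ϖ : F) ^ (e * (p - 1)) * O.valuation (ϖ : F) ^ j := by
      refine (mul_le_of_le_one_right zero_le h1).trans ?_
      refine mul_le_mul_right ?_ _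
      exact mul_le_of_le_one_left zero_le hb
    refine h2.trans ?_
    rw [← pow_add]
    refine pow_le_pow_right_of_le_one' D.pv.le ?_
    obtain ⟨q, rfl⟩ : ∃ q, p = q + 1 := ⟨p - 1, by have := hp.one_lt; omega⟩
    have hq : 1 ≤ q := by have := hp.one_lt; omega
    rw [Nat.add_sub_cancel]
    have h3 : (j + 1) * q ≤ e * q := Nat.mul_le_mul_right q hj
    nlinarith

end

end Pool.Agent.Helper58.ET
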