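import Mathlib
import Pool.Agent.Helper58.EU.Wild

set_option autoImplicit false

/-! Wild leaves: the pairing. -/

namespace Pool.Agent.Helper58.ET

open Pool.Agent.Y920.EP Pool.Agent.Helper58.EB Pool.Agent.Helper58.EU
open scoped TensorProduct

section

variable {F : Type} [Field F] {A : Type} [CommGroup A] {φ : Fˣ →* A}
variable {p : ℕ} {ζ : Fˣ} {O : ValuationSubring F} {ϖ : Fˣ} {e : ℕ} {g : Fˣ}
variable (hφ : Function.Surjective φ) (hp : p.Prime)
  (hkp : ∀ c : Fˣ, φ (c ^ p) = 1) (hζ : IsPrimitiveRoot ζ p)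
  {S : AddSubgroup (Additive A ⊗[ℤ] Additive A)} (hS : St φ ≤ S)

/-- division by integers prime to `p` -/
lemma mem_of_smul {M : Type} [AddCommGroup M] {S : AddSubgroup M} (hp : p.Prime) {i : ℤ}
    (hi : ¬ (p : ℤ) ∣ i) {x : M} (h1 : i • x ∈ S) (h2 : p • x ∈ S) : x ∈ S := by
  have h3 : IsCoprime (p : ℤ) i := by
    rw [Int.isCoprime_iff_gcd_eq_one, Int.gcd_eq_natAbs, Int.natAbs_natCast]
    rw [← Nat.coprime_iff_gcd_eq_one, hp.coprime_iff_not_dvd]
    rwa [← Int.natCast_dvd]
  obtain ⟨a, b, hab⟩ := h3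
  have h4 : x = a • (p • x) + b • (i • x) := by
    rw [← natCast_zsmul, ← mul_smul, ← mul_smul, ← add_smul, hab, one_smul]
  rw [h4]
  exact S.add_mem (S.zsmul_mem h2 a) (S.zsmul_mem h1 b)

include hkp in
lemma sy_p (u v : Fˣ) : p • sy φ u v = 0 := by
  rw [← sy_pow_right, sy_one_right (hkp v)]

include hφ hS hp hkp in
/-- symbols of units and of elements of level `e p` -/
lemma Dsc.unit_g (D : Dsc φ p ζ O ϖ e g) {u w : Fˣ} (hu : O.valuation (u : F) = 1)
    (hw : O.valuation ((w : F) - 1) ≤ O.valuation (ϖ : F) ^ (e * p)) : sy φ u w ∈ S := by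
  refine D.step' hφ hp hkp hS ?_ hu hw
  intro f u hu
  rw [sy_one_right (D.high hu)]
  exact S.zero_mem

include hφ hS hp hkp hζ in
/-- the symbols of one-units -/
lemma Dsc.desc (D : Dsc φ p ζ O ϖ e g) (hg : sy φ ϖ g ∈ S) (m : ℕ) :
    ∀ i : ℕ, 1 ≤ i → i + m = e * p + 1 → ∀ f u : Fˣ,
      O.valuation ((u : F) - 1) ≤ O.valuation (ϖ : F) ^ i → sy φ f u ∈ S := by
  have hgv : O.valuation ((g : F) - 1) ≤ O.valuation (ϖ : F) ^ (e * p) := by
    rw [← D.lamp]; exact D.gv
  induction m with
  | zero =>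
    intro i _ hi f u hu
    rw [add_zero] at hi
    rw [hi] at hu
    rw [sy_one_right (D.high hu)]
    exact S.zero_mem
  | succ m ih =>
    intro i hi1 hi f u hu
    have ih' := ih (i + 1) (by omega) (by omega)
    have hunit : ∀ w : Fˣ, O.valuation (w : F) = 1 → sy φ w u ∈ S :=
      fun w hw => D.step' hφ hp hkp hS ih' hw hu
    obtain ⟨n, w, rfl, hw⟩ := D.decF f
    rw [sy_mul_left, sy_zpow_left]
    refine S.add_mem (S.zsmul_mem ?_ n) (hunit w hw)
    rcases Nat.eq_zero_or_pos m with rfl | hm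
    · -- level `e p`
      have hi' : i = e * p := by omega
      rw [hi'] at hu
      obtain ⟨k, hk⟩ := D.gen' hkp hu
      have h1 : sy φ ϖ u = sy φ ϖ (g ^ k) := by unfold sy; rw [hk]
      rw [h1, sy_pow_right]
      exact S.nsmul_mem hg k
    have hlt : i < e * p := by omega
    by_cases hpi : p ∣ i
    · obtain ⟨j, rfl⟩ := hpi
      rw [mul_comm p j] at hu hlt ih'
      have hj : j < e := Nat.lt_of_mul_lt_mul_right hlt
      have hj0 : 0 < j := by
        rcases Nat.eq_zero_or_pos j with rfl | h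
        · omega
        · exact h
      obtain ⟨f, u', rfl, hu'⟩ := D.raise hp hζ hj hj0 hu
      rw [sy_mul_right, sy_one_right (hkp f), zero_add]
      exact ih' ϖ u' hu'
    · rcases hu.lt_or_eq with h1 | h1
      · exact ih' ϖ u (D.le_succ h1)
      · have hβ : (u : F) - 1 ≠ 0 := by
          intro e0
          rw [e0, map_zero] at h1
          exact absurd h1.symm (pow_ne_zero _ (val_ne O ϖ))
        obtain ⟨a, ha⟩ : ∃ a : Fˣ, (u : F) = 1 - ((ϖ ^ i * a : Fˣ) : F) := by
          refine ⟨-(Units.mk0 _ hβ / ϖ ^ i), ?_⟩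
          rw [mul_neg, mul_div_cancel, Units.val_neg, Units.val_mk0]
          ring
        have hav : O.valuation (a : F) = 1 := by
          rw [ha, sub_sub_cancel_left, Valuation.map_neg, Units.val_mul, map_mul,
            Units.val_pow_eq_pow_val, map_pow] at h1
          exact mul_left_cancel₀ (pow_ne_zero _ (val_ne O ϖ)) (by rw [h1, mul_one])
        have h2 : sy φ (ϖ ^ i * a) u ∈ S := hS (st_add (by rw [ha]; ring))
        rw [sy_mul_left, sy_pow_left] at h2
        have h3 := S.sub_mem h2 (hunit a hav)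
        rw [add_sub_cancel_right] at h3
        refine mem_of_smul hp (i := (i : ℤ)) ?_ ?_ ?_
        · rwa [Int.natCast_dvd_natCast]
        · rw [natCast_zsmul]
          exact h3
        · rw [sy_p hkp]
          exact S.zero_mem

include hφ hS hp hkp hζ in
/-- all symbols -/
lemma Dsc.all (D : Dsc φ p ζ O ϖ e g) (hg : sy φ ϖ g ∈ S) (f f' : Fˣ) : sy φ f f' ∈ S := by
  have h1 : ∀ f u : Fˣ, O.valuation (u : F) = 1 → sy φ f u ∈ S := by
    intro f u hu
    obtain ⟨w, u', rfl, hu'⟩ := D.decU hp hu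
    rw [sy_mul_right, sy_one_right (hkp w), zero_add]
    refine D.desc hφ hp hkp hζ hS hg (e * p) 1 le_rfl (by ring) f u' ?_
    rw [pow_one]
    exact D.mx _ hu'
  obtain ⟨n, w, rfl, hw⟩ := D.decF f'
  obtain ⟨m, z, rfl, hz⟩ := D.decF f
  have h2 : sy φ ϖ ϖ ∈ S := by
    have h4 : sy φ ϖ (-ϖ) ∈ S := hS (st_neg ϖ)
    rw [← neg_one_mul ϖ, sy_mul_right] at h4
    have h5 := S.sub_mem h4 (h1 ϖ (-1) (by
      rw [Units.val_neg, Units.val_one, Valuation.map_neg, map_one]))
    rwa [add_sub_cancel_left] at h5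
  have h3 : sy φ ϖ z ∈ S := h1 ϖ z hz
  rw [sy_mul_right]
  refine S.add_mem ?_ (h1 _ w hw)
  apply sy_anti hφ hS
  rw [sy_zpow_left, sy_mul_right]
  refine S.zsmul_mem (S.add_mem ?_ h3) n
  apply sy_anti hφ hS
  rw [sy_zpow_left]
  exact S.zsmul_mem h2 m

include hφ hp hkp hζ in
/-- the pairing is nondegenerate modulo the closure of the `p`-th powers -/
lemma Dsc.nondeg (D : Dsc φ p ζ O ϖ e g) (hg : sy φ ϖ g ∉ St φ) (t : Fˣ)
    (ht : ∀ (f : Fˣ) (n : ℤ), ¬ (p : ℤ) ∣ n → sy φ t f - n • sy φ ϖ g ∉ St φ) :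
    ∃ (f : Fˣ) (x : F), O.valuation x < O.valuation (1 - (ζ : F)) ^ p ∧
      (t : F) = (f : F) ^ p * (1 + x) := by
  have hgv : O.valuation ((g : F) - 1) ≤ O.valuation (ϖ : F) ^ (e * p) := by
    rw [← D.lamp]; exact D.gv
  have hunit : ∀ w : Fˣ, O.valuation (w : F) = 1 → sy φ w g ∈ St φ :=
    fun w hw => D.unit_g hφ hp hkp le_rfl hw hgv
  have hg1 : (g : F) - 1 ≠ 0 := by
    intro e0
    apply hg
    have : g = 1 := Units.ext (by rw [Units.val_one]; linear_combination e0)
    rw [this, sy_one_right (map_one _)]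
    exact zero_mem _
  obtain ⟨m, w, rfl, hw⟩ := D.decF t
  have hm : (p : ℤ) ∣ m := by
    by_contra hcon
    apply ht g m hcon
    rw [sy_mul_left, sy_zpow_left, add_sub_cancel_left]
    exact hunit w hw
  obtain ⟨l, rfl⟩ := hm
  obtain ⟨w', u, rfl, hu⟩ := D.decU hp hw
  have key : ∀ i : ℕ, i ≤ e * p → ∃ f₁ u₁ : Fˣ, ϖ ^ ((p : ℤ) * l) * (w' ^ p * u) = f₁ ^ p * u₁ ∧
      O.valuation ((u₁ : F) - 1) ≤ O.valuation (ϖ : F) ^ (i + 1) := by
    intro i
    induction i with
    | zero =>
      intro _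
      refine ⟨ϖ ^ l * w', u, ?_, ?_⟩
      · rw [mul_pow, ← zpow_natCast (ϖ ^ l), ← zpow_mul, mul_comm l, mul_assoc]
      · rw [zero_add, pow_one]
        exact D.mx _ hu
    | succ i ih =>
      intro hi
      obtain ⟨f₁, u₁, h1, h2⟩ := ih (by omega)
      rw [h1] at ht
      have ht' : ∀ (f : Fˣ) (n : ℤ), ¬ (p : ℤ) ∣ n → sy φ u₁ f - n • sy φ ϖ g ∉ St φ := by
        intro f n hn h3
        apply ht f n hn
        rwa [sy_mul_left, sy_one_left (hkp f₁), zero_add]
      have hu₁ : O.valuation (u₁ : F) = 1 := by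
        have := val_one_add O (h2.trans_lt (pow_lt_one₀ zero_le D.pv (Nat.succ_ne_zero i)))
        rwa [add_sub_cancel] at this
      rcases Nat.lt_or_eq_of_le hi with hlt | heq
      · by_cases hpi : p ∣ i + 1
        · obtain ⟨j, hj⟩ := hpi
          have hj' : i + 1 = j * p := by rw [hj, mul_comm]
          rw [hj'] at hlt h2 ⊢
          have hje : j < e := Nat.lt_of_mul_lt_mul_right hlt
          have hj0 : 0 < j := by
            rcases Nat.eq_zero_or_pos j with rfl | h
            · omega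
            · exact h
          obtain ⟨f, u', rfl, hu'⟩ := D.raise hp hζ hje hj0 h2
          exact ⟨f₁ * f, u', by rw [h1, mul_pow, mul_assoc], hu'⟩
        · refine ⟨f₁, u₁, h1, ?_⟩
          by_contra hcon
          have h3 : O.valuation ((u₁ : F) - 1) = O.valuation (ϖ : F) ^ (i + 1) := by
            refine le_antisymm h2 (not_lt.1 fun h => hcon (D.le_succ h))
          have hα : (u₁ : F) - 1 ≠ 0 := by
            intro e0
            rw [e0, map_zero] at h3
            exact absurd h3.symm (pow_ne_zero _ (val_ne O ϖ))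
          obtain ⟨α, hα'⟩ : ∃ α : Fˣ, (α : F) = (u₁ : F) - 1 := ⟨Units.mk0 _ hα, Units.val_mk0 _⟩
          have hβ : ((g : F) - 1) / α ≠ 0 := div_ne_zero hg1 α.ne_zero
          obtain ⟨β, hβ'⟩ : ∃ β : Fˣ, (β : F) = ((g : F) - 1) / α :=
            ⟨Units.mk0 _ hβ, Units.val_mk0 _⟩
          have hαv : O.valuation (α : F) = O.valuation (ϖ : F) ^ (i + 1) := by rw [hα', h3]
          have hβv : O.valuation (β : F) < 1 := by
            rw [hβ', map_div₀, hαv, div_lt_one₀ (pow_pos (val_pos O _) _)]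
            refine hgv.trans_lt ?_
            exact pow_lt_pow_right_of_lt_one₀ (val_pos O _) D.pv hlt
          obtain ⟨f, hf, hf1⟩ := exists_unit_one_add O hβv
          have hα0 : (α : F) ≠ 0 := α.ne_zero
          have hαβ : (α : F) * β = (g : F) - 1 := by
            rw [hβ', mul_div_cancel₀ _ hα0]
          have hgu : O.valuation (((g : F) - 1) / u₁) < 1 := by
            rw [map_div₀, hu₁, div_one]
            refine hgv.trans_lt (pow_lt_one₀ zero_le D.pv ?_)
            omega
          obtain ⟨z, hz, hz1⟩ := exists_unit_one_add O hgu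
          have h4 := ident hφ (u := u₁) (w := f) (α := α) (β := β) (z := z)
            (by rw [hα']; ring) hf (by rw [hz, hαβ])
          -- the classes of `z` and `g` agree
          have hg0 : (g : F) ≠ 0 := g.ne_zero
          have hu0 : (u₁ : F) ≠ 0 := u₁.ne_zero
          have hgv1 : O.valuation (g : F) = 1 := by
            have := val_one_add O (x := (g : F) - 1) (hgv.trans_lt (pow_lt_one₀ zero_le D.pv
              (by omega)))
            rwa [add_sub_cancel] at this
          have h5 : φ (z / g) = 1 := by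
            refine D.high' (x := ((g : F) - 1) * (1 - u₁) / (u₁ * g)) ?_ ?_
            · rw [map_div₀, map_mul, map_mul, hu₁, hgv1, one_mul, div_one]
              have h6 : O.valuation (1 - (u₁ : F)) < 1 := by
                rw [← Valuation.map_neg, neg_sub, h3]
                exact pow_lt_one₀ zero_le D.pv (Nat.succ_ne_zero i)
              have h7 : 0 < O.valuation (1 - (ζ : F)) ^ p := by
                rw [D.lamp]
                exact pow_pos (val_pos O _) _
              calc O.valuation ((g : F) - 1) * O.valuation (1 - (u₁ : F)) ≤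
                    O.valuation (1 - (ζ : F)) ^ p * O.valuation (1 - (u₁ : F)) :=
                    mul_le_mul_left D.gv _
                _ < O.valuation (1 - (ζ : F)) ^ p := mul_lt_of_lt_one_right h7 h6
            · rw [Units.val_div_eq_div_val, hz]
              field_simp
              ring
          have h6 : φ z = φ g := by
            rw [map_div, div_eq_one] at h5
            exact h5
          have h7 : sy φ (-α) z = sy φ (-α) g := by unfold sy; rw [h6]
          have h8 : sy φ f z = sy φ f g := by unfold sy; rw [h6]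
          obtain ⟨a, ha⟩ : ∃ a : Fˣ, α = ϖ ^ (i + 1) * a :=
            ⟨α / ϖ ^ (i + 1), by rw [mul_div_cancel]⟩
          have hav : O.valuation (a : F) = 1 := by
            rw [ha, Units.val_mul, map_mul, Units.val_pow_eq_pow_val, map_pow] at hαv
            exact mul_left_cancel₀ (pow_ne_zero _ (val_ne O ϖ)) (by rw [hαv, mul_one])
          apply ht' f ((i + 1 : ℕ) : ℤ)
          · rwa [Int.natCast_dvd_natCast]
          · have e2 : -α = ϖ ^ (i + 1) * (-a) := by rw [ha, mul_neg]
            rw [h7, h8, e2, sy_mul_left, sy_pow_left, ← natCast_zsmul] at h4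
            have h9 := add_mem h4 (add_mem (hunit (-a) (by
              rw [Units.val_neg, Valuation.map_neg]; exact hav)) (hunit f hf1))
            convert h9 using 1
            abel
      · -- level `e p`
        rw [heq] at h2 ⊢
        rw [← D.lamp] at h2
        obtain ⟨n, f, x, hx, h3⟩ := D.gen u₁ h2
        have hl : O.valuation (1 - (ζ : F)) ^ p ≤ 1 := by
          rw [D.lamp]
          exact pow_le_one₀ zero_le D.pv.le
        obtain ⟨z, hz, -⟩ := exists_unit_one_add O (hx.trans_le hl)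
        have e1 : u₁ = g ^ n * f ^ p * z := by
          ext
          rw [h3, Units.val_mul, Units.val_mul, Units.val_pow_eq_pow_val,
            Units.val_pow_eq_pow_val, hz]
        have hz1 := D.high' hx hz
        by_cases hn : p ∣ n
        · obtain ⟨l', rfl⟩ := hn
          refine ⟨f₁ * (g ^ l' * f), z, ?_, ?_⟩
          · rw [h1, e1, mul_pow, mul_pow, ← pow_mul, mul_comm l' p]
            simp only [mul_assoc]
          · rw [hz, add_sub_cancel_left]
            apply D.le_succ
            rw [← D.lamp]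
            exact hx
        · exfalso
          apply ht' ϖ (-(n : ℤ))
          · rwa [dvd_neg, Int.natCast_dvd_natCast]
          · rw [e1, sy_mul_left, sy_mul_left, sy_one_left hz1, sy_one_left (hkp f), add_zero,
              add_zero, sy_pow_left]
            have h4 : sy φ ϖ g + sy φ g ϖ ∈ St φ := st_symm' hφ (φ ϖ) (φ g)
            have h5 := nsmul_mem h4 n
            rw [smul_add] at h5
            rw [neg_smul, sub_neg_eq_add, natCast_zsmul, add_comm]
            exact h5
  obtain ⟨f₁, u₁, h1, h2⟩ := key (e * p) le_rfl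
  refine ⟨f₁, (u₁ : F) - 1, ?_, ?_⟩
  · rw [D.lamp]
    exact D.lt_pow h2
  · rw [h1, Units.val_mul, Units.val_pow_eq_pow_val]
    ring

/-- wild leaves are wild blocks -/
theorem padic {A₀ : Type} [CommGroup A₀] [Finite A₀] [Nontrivial A] {φ₀ : Fˣ →* A₀}
    (hp : p.Prime) (hζ : IsPrimitiveRoot ζ p)
    (hk : ∀ u : Fˣ, φ₀ u = 1 ↔ ∃ c : Fˣ, u = c ^ p) (hkp : ∀ c : Fˣ, φ (c ^ p) = 1)
    (h : EU.Nd φ (Ns φ)) (hO : Pd φ p O) (hpF : (p : F) ≠ 0) : LfB φ p ζ ⊥ O := by
  obtain ⟨ϖ, e, g, D⟩ := exists_dsc hp hζ O hk hkp hO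
  obtain ⟨q, hq⟩ : ∃ q : Fˣ, (q : F) = p := ⟨Units.mk0 _ hpF, Units.val_mk0 _⟩
  have hqv : O.valuation (q : F) < 1 := by rw [hq]; exact hO.pv
  have hbd : ∀ t : Fˣ, Bd p O t := by
    intro t
    refine ⟨?_, ?_⟩
    · obtain ⟨j, hj⟩ := hO.arch _ hqv t
      exact ⟨j, by rw [← hq]; exact hj⟩
    · obtain ⟨j, hj⟩ := hO.arch _ hqv t⁻¹
      refine ⟨j, ?_⟩
      rw [Units.val_inv_eq_inv_val, map_inv₀] at hj
      rw [← hq]
      calc O.valuation (q : F) ^ j * O.valuation (t : F) ≤
            (O.valuation (t : F))⁻¹ * O.valuation (t : F) := mul_le_mul_left hj _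
        _ = 1 := inv_mul_cancel₀ (val_ne O t)
  have hg : sy φ ϖ g ∉ St φ := by
    intro hg
    obtain ⟨b, hb⟩ := exists_ne (1 : A)
    apply hb
    apply h.nd
    intro a
    obtain ⟨u, rfl⟩ := h.surj a
    obtain ⟨v, rfl⟩ := h.surj b
    exact D.all h.surj hp hkp hζ le_rfl hg u v
  refine ⟨hO.pv, ?_, ?_, ?_, ?_⟩
  · intro f hf
    obtain ⟨j, hj⟩ := hO.arch f hf q
    exact ⟨j, by rw [← hq]; exact hj⟩
  · intro x hx
    obtain ⟨u, hu, hu1⟩ := D.one x hx
    exact ⟨u, hu, by rw [hu1]; exact Subgroup.one_mem _⟩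
  · obtain ⟨c, hc⟩ := hO.nu
    refine ⟨c, hbd c, fun u hu h1 => hc u hu ?_⟩
    rw [Subgroup.mem_bot, div_eq_one] at h1
    exact h1
  · intro t _ ht
    rw [Subgroup.mem_bot] at ht
    refine D.nondeg h.surj hp hkp hζ hg t ?_
    intro f n hn h1
    rw [sy_one_left ht, zero_sub] at h1
    apply hg
    refine mem_of_smul hp hn ?_ ?_
    · have := neg_mem h1
      rwa [neg_neg] at this
    · rw [sy_p hkp]
      exact zero_mem _

end

end Pool.Agent.Helper58.ET
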