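import Mathlib
import Pool.Agent.Helper58.EU.Wild2

set_option autoImplicit false

/-! The leaves, for all primes. -/

namespace Pool.Agent.Helper58.EU

open Pool.Agent.Y920.EP Pool.Agent.Helper58.EB Pool.Agent.Helper58.ET
open scoped TensorProduct

lemma neg_one_pow_char_aux {R : Type} [CommRing R] {p : ℕ} [Fact p.Prime] [CharP R p] :
    (-1 : R) ^ p = -1 := by
  exact neg_one_pow_char R p

/-- the field is infinite -/
lemma Nd.infinite' {F : Type} [Field F] {A : Type} [CommGroup A] {φ : Fˣ →* A} {p : ℕ}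
    (hp : p.Prime) (hkp : ∀ c : Fˣ, φ (c ^ p) = 1) (h : Nd φ (Ns φ)) [Nontrivial A] :
    Infinite F := by
  by_contra hF
  rw [not_infinite_iff_finite] at hF
  have hA : IsCyclic A := isCyclic_of_surjective φ h.surj
  obtain ⟨a, ha⟩ := hA.exists_generator
  have hcon : ¬ Additive.ofMul a ⊗ₜ[ℤ] Additive.ofMul a ∈ St φ := by
    intro haa
    have h1 : a = 1 := by
      apply h.nd
      intro b
      apply h.symm
      exact (Subgroup.zpowers_le.2 haa) (ha b)
    obtain ⟨b, hb⟩ := exists_ne (1 : A)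
    apply hb
    have h2 := ha b
    rw [h1, Subgroup.zpowers_one_eq_bot, Subgroup.mem_bot] at h2
    exact h2
  obtain ⟨w, hw⟩ := h.surj a
  by_cases hneg : φ (-1) = 1
  · apply hcon
    have := st_neg (φ := φ) w
    rwa [phi_neg' φ w, hneg, one_mul, hw] at this
  · have hp2 : p = 2 := by
      by_contra hp2
      apply hneg
      have hodd : Odd p := hp.odd_of_ne_two hp2
      have : (-1 : Fˣ) = (-1) ^ p := by rw [hodd.neg_one_pow]
      rw [this, hkp]
    subst hp2
    -- the group has two elements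
    have haa : a * a = 1 := by rw [← pow_two, ← hw, ← map_pow, hkp]
    have htwo : ∀ b : A, b = 1 ∨ b = a := by
      intro b
      obtain ⟨k, rfl⟩ := Subgroup.mem_zpowers_iff.1 (ha b)
      rcases Int.even_or_odd k with ⟨l, rfl⟩ | ⟨l, rfl⟩
      · left
        rw [zpow_add, ← mul_zpow, haa, one_zpow]
      · right
        rw [zpow_add, two_mul, zpow_add, ← mul_zpow, haa, one_zpow, one_mul, zpow_one]
    have hna : φ (-1) = a := (htwo _).resolve_left hneg
    have hadd : ∀ s : Fˣ, φ s = 1 → ∃ z : Fˣ, (z : F) = 1 + s ∧ φ z = 1 := by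
      intro s hs
      have hne : (1 : F) + s ≠ 0 := by
        intro e
        apply hneg
        have : s = -1 := by
          ext
          rw [Units.val_neg, Units.val_one]
          linear_combination e
        rw [← this, hs]
      obtain ⟨z, hz⟩ : ∃ z : Fˣ, (z : F) = 1 + s := ⟨Units.mk0 _ hne, Units.val_mk0 _⟩
      refine ⟨z, hz, (htwo _).resolve_right fun hza => hcon ?_⟩
      have := st_add (φ := φ) (u := -s) (v := z) (by rw [hz, Units.val_neg]; ring)
      rwa [phi_neg' φ s, hs, mul_one, hna, hza] at this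
    have hn : ∀ n : ℕ, ∃ z : Fˣ, (z : F) = ((n + 1 : ℕ) : F) ∧ φ z = 1 := by
      intro n
      induction n with
      | zero => exact ⟨1, by simp, map_one _⟩
      | succ n ih =>
        obtain ⟨z, hz, hz1⟩ := ih
        obtain ⟨y, hy, hy1⟩ := hadd z hz1
        exact ⟨y, by rw [hy, hz]; push_cast; ring, hy1⟩
    have _ := Fintype.ofFinite F
    obtain ⟨z, hz, -⟩ := hn (Fintype.card F - 1)
    rw [Nat.sub_add_cancel Fintype.card_pos, Nat.cast_card_eq_zero] at hz
    exact z.ne_zero hz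

section

variable {F : Type} [Field F] {A : Type} [CommGroup A] {φ : Fˣ →* A}
  {p : ℕ} (hp : p.Prime) (O : ValuationSubring F)

include hp in
/-- the residue field is perfect on units -/
lemma perf' [Finite A] (hk : ∀ u : Fˣ, φ u = 1 ↔ ∃ c : Fˣ, u = c ^ p)
    (hpO : O.valuation (p : F) < 1) {y : Fˣ} (hy : O.valuation (y : F) = 1) :
    φ y ∈ BB φ O := by
  have _ : Fact p.Prime := ⟨hp⟩
  have _ := charP_res O hp hpO
  have hyO : (y : F) ∈ O := (O.valuation_le_one_iff _).1 hy.le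
  obtain ⟨η, hη⟩ : ∃ η, η = IsLocalRing.residue O ⟨y, hyO⟩ := ⟨_, rfl⟩
  have hη0 : η ≠ 0 := by
    rw [hη, Ne, residue_eq_zero_iff, not_lt]
    exact hy.ge
  -- it suffices that the residue is a `p`-th power
  have key : (∃ s : IsLocalRing.ResidueField O, s ^ p = η) → φ y ∈ BB φ O := by
    rintro ⟨s, hs⟩
    obtain ⟨s', rfl⟩ := IsLocalRing.residue_surjective s
    have hs0 : IsLocalRing.residue O s' ≠ 0 := by
      intro e
      rw [e, zero_pow hp.ne_zero] at hs
      exact hη0 hs.symm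
    have hsv := valuation_eq_one_of O s' hs0
    have hsF : (s' : F) ≠ 0 := by
      intro e
      rw [e, map_zero] at hsv
      exact zero_ne_one hsv
    have h1 : O.valuation ((y : F) - (s' : F) ^ p) < 1 := by
      have h2 := residue_eq_zero_iff O (⟨y, hyO⟩ - s' ^ p)
      rw [map_sub, map_pow, hs, ← hη, sub_self] at h2
      have h3 := h2.1 rfl
      exact h3
    have h2 : φ y = φ (y / (Units.mk0 _ hsF) ^ p) := by
      rw [map_div, (hk ((Units.mk0 _ hsF) ^ p)).2 ⟨_, rfl⟩, div_one]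
    rw [h2]
    apply mem_BB
    rw [Units.val_div_eq_div_val, Units.val_pow_eq_pow_val, Units.val_mk0,
      div_sub_one (pow_ne_zero _ hsF), map_div₀, map_pow, hsv, one_pow, div_one]
    exact h1
  by_cases hz : ∃ n : ℕ, η + (η ^ n) ^ p = 0
  · obtain ⟨n, hn⟩ := hz
    apply key
    refine ⟨-η ^ n, ?_⟩
    rw [neg_pow, neg_one_pow_char_aux]
    linear_combination (-1) * hn
  push Not at hz
  have hun : ∀ n : ℕ, ∃ u : Fˣ, (u : F) = y + ((y : F) ^ n) ^ p ∧ O.valuation (u : F) = 1 := by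
    intro n
    have h1 : IsLocalRing.residue O (⟨y, hyO⟩ + (⟨y, hyO⟩ ^ n) ^ p) ≠ 0 := by
      rw [map_add, map_pow, map_pow, ← hη]
      exact hz n
    have h2 := valuation_eq_one_of O _ h1
    have e : (((⟨y, hyO⟩ + (⟨y, hyO⟩ ^ n) ^ p : O)) : F) = y + ((y : F) ^ n) ^ p := by
      push_cast
      rfl
    rw [e] at h2
    have h3 : (y : F) + ((y : F) ^ n) ^ p ≠ 0 := by
      intro e
      rw [e, map_zero] at h2
      exact zero_ne_one h2
    exact ⟨Units.mk0 _ h3, Units.val_mk0 _, by rw [Units.val_mk0]; exact h2⟩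
  choose u hu hu1 using hun
  obtain ⟨i, j, hij, e⟩ : ∃ i j, i < j ∧ φ (u i) = φ (u j) := by
    obtain ⟨i, j, hij, e⟩ := Finite.exists_ne_map_eq_of_infinite fun n => φ (u n)
    rcases lt_or_gt_of_ne hij with h | h
    · exact ⟨i, j, h, e⟩
    · exact ⟨j, i, h, e.symm⟩
  obtain ⟨t, ht⟩ : ∃ t : Fˣ, u i = u j * t ^ p := by
    have h1 : φ (u i / u j) = 1 := by rw [map_div, e, div_self']
    obtain ⟨t, ht⟩ := (hk _).1 h1
    exact ⟨t, by rw [← ht, mul_div_cancel]⟩
  have htv : O.valuation (t : F) = 1 := by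
    have h1 : O.valuation (u i : F) = O.valuation ((u j * t ^ p : Fˣ) : F) := by rw [ht]
    rw [Units.val_mul, Units.val_pow_eq_pow_val, map_mul, hu1, hu1, one_mul, map_pow] at h1
    exact (pow_eq_one_iff_of_nonneg zero_le hp.ne_zero).1 h1.symm
  have htO : (t : F) ∈ O := (O.valuation_le_one_iff _).1 htv.le
  apply key
  refine perf_aux (t := IsLocalRing.residue O ⟨t, htO⟩) hη0 hij ?_
  rw [hη]
  simp only [← map_pow, ← map_add, ← map_mul]
  congr 1
  ext
  push_cast
  have h1 := congrArg Units.val ht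
  rw [Units.val_mul, Units.val_pow_eq_pow_val, hu, hu] at h1
  exact h1

end

section

variable {F : Type} [Field F] {A : Type} [CommGroup A] {φ : Fˣ →* A}
variable {Nn : A → Subgroup A} {A₀ : Type} [CommGroup A₀] {φ₀ : Fˣ →* A₀} {p : ℕ}

/-- in the mixed characteristic case there is a class without units -/
lemma exists_nu'' (hp : p.Prime) (O : ValuationSubring F) [Finite A₀] [Finite A]
    [Nontrivial A] (h : Nd φ Nn) (hk : ∀ u : Fˣ, φ₀ u = 1 ↔ ∃ c : Fˣ, u = c ^ p)
    (hkp : ∀ c : Fˣ, φ (c ^ p) = 1)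
    (hpO : O.valuation (p : F) < 1) {d : Fˣ} (hd1 : O.valuation (d : F) < 1)
    (hd : ∀ v : F, O.valuation v ≤ O.valuation (d : F) → ∃ u : Fˣ, (u : F) = 1 + v ∧ φ u = 1)
    (harch : ∀ x : F, O.valuation x < 1 → ∀ y : Fˣ, ∃ j : ℕ,
      O.valuation x ^ j ≤ O.valuation (y : F)) :
    ∃ c : Fˣ, ∀ u : Fˣ, O.valuation (u : F) = 1 → φ c ≠ φ u := by
  classical
  by_contra hcon
  push Not at hcon
  -- all classes are classes of one-units
  have hall : ∀ b : A, b ∈ BB φ O := by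
    intro b
    obtain ⟨c, rfl⟩ := h.surj b
    obtain ⟨u, hu, hcu⟩ := hcon c
    obtain ⟨w, hw, hw1⟩ := perf' hp O hk hpO hu
    have h1 : φ₀ (u / w) = 1 := by rw [map_div, hw1, div_self']
    obtain ⟨s, hs⟩ := (hk _).1 h1
    rw [hcu]
    refine ⟨w, hw, ?_⟩
    have h2 : φ (u / w) = 1 := by rw [hs, hkp]
    rw [map_div, div_eq_one] at h2
    exact h2.symm
  have hC : ¬ Cmp φ O := by
    intro hC
    obtain ⟨b, hb⟩ := exists_ne (1 : A)
    apply hb
    obtain ⟨w, hw, rfl⟩ := hall b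
    obtain ⟨z, hz, hz1⟩ := hC _ ((O.mem_principalUnitGroup_iff w).1 hw)
    rw [← hz1]
    congr 1
    ext
    rw [hz]
    ring
  unfold Cmp at hC
  push Not at hC
  obtain ⟨x₀, hx₀, hx₀1⟩ := hC
  -- representatives of the classes of one-units
  have hrep : ∀ b : A, ∃ u : Fˣ, O.valuation ((u : F) - 1) < 1 ∧ φ u = b := by
    intro b
    obtain ⟨u, hu, hub⟩ := hall b
    exact ⟨u, (O.mem_principalUnitGroup_iff u).1 hu, hub⟩
  choose rep hrep1 hrep2 using hrep
  obtain ⟨ε, hε1, hε2⟩ : ∃ ε : Fˣ, O.valuation (ε : F) < 1 ∧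
      ∀ b, O.valuation ((rep b : F) - 1) ≤ O.valuation (ε : F) := by
    obtain ⟨b₀, hb₀⟩ := Finite.exists_max fun b =>
      max (O.valuation ((rep b : F) - 1)) (O.valuation (d : F))
    by_cases h0 : O.valuation ((rep b₀ : F) - 1) ≤ O.valuation (d : F)
    · refine ⟨d, hd1, fun b => ?_⟩
      have := (le_max_left _ _).trans (hb₀ b)
      rwa [max_eq_right h0] at this
    · rw [not_le] at h0
      have hne : (rep b₀ : F) - 1 ≠ 0 := by
        intro e
        rw [e, map_zero] at h0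
        exact absurd h0 (not_lt.2 zero_le)
      refine ⟨Units.mk0 _ hne, by rw [Units.val_mk0]; exact hrep1 b₀, fun b => ?_⟩
      have := (le_max_left _ _).trans (hb₀ b)
      rwa [max_eq_left h0.le] at this
  -- an element `1 + x` not in the kernel which is close to one
  obtain ⟨x, hx, hx1, hxε⟩ : ∃ x : F, O.valuation x < 1 ∧
      (∀ u : Fˣ, (u : F) = 1 + x → φ u ≠ 1) ∧
      ∀ v : F, O.valuation v ≤ O.valuation x * O.valuation (ε : F) →
        ∃ u : Fˣ, (u : F) = 1 + v ∧ φ u = 1 := by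
    have hex : ∃ n : ℕ, ∀ v : F, O.valuation v ≤ O.valuation x₀ * O.valuation (ε : F) ^ n →
        ∃ u : Fˣ, (u : F) = 1 + v ∧ φ u = 1 := by
      obtain ⟨j, hj⟩ := harch _ hε1 d
      refine ⟨j, fun v hv => hd v (hv.trans ?_)⟩
      exact (mul_le_of_le_one_left zero_le hx₀.le).trans hj
    obtain ⟨n, hn, hmin⟩ : ∃ n : ℕ, (∀ v : F, O.valuation v ≤
        O.valuation x₀ * O.valuation (ε : F) ^ n → ∃ u : Fˣ, (u : F) = 1 + v ∧ φ u = 1) ∧
        ∀ m < n, ¬ ∀ v : F, O.valuation v ≤ O.valuation x₀ * O.valuation (ε : F) ^ m →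
          ∃ u : Fˣ, (u : F) = 1 + v ∧ φ u = 1 :=
      ⟨Nat.find hex, Nat.find_spec hex, fun m hm => Nat.find_min hex hm⟩
    have hn0 : n ≠ 0 := by
      rintro rfl
      obtain ⟨u, hu, hu1⟩ := hn x₀ (by rw [pow_zero, mul_one])
      exact hx₀1 u hu hu1
    obtain ⟨m, rfl⟩ := Nat.exists_eq_succ_of_ne_zero hn0
    have hm := hmin m (Nat.lt_succ_self m)
    push Not at hm
    obtain ⟨x, hx, hx1⟩ := hm
    refine ⟨x, ?_, hx1, fun v hv => hn v (hv.trans ?_)⟩
    · refine hx.trans_lt ?_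
      exact mul_lt_one_of_nonneg_of_lt_one_left zero_le hx₀ (pow_le_one₀ zero_le hε1.le)
    · rw [Nat.succ_eq_add_one, pow_succ, ← mul_assoc]
      exact mul_le_mul_left hx _
  obtain ⟨g, hg, hg1⟩ := exists_unit_one_add O hx
  have hx0 : x ≠ 0 := by
    rintro rfl
    exact hx1 1 (by rw [Units.val_one, add_zero]) (map_one _)
  obtain ⟨x', hx'⟩ : ∃ x' : Fˣ, (x' : F) = x := ⟨Units.mk0 _ hx0, Units.val_mk0 _⟩
  have ha := hx1 g hg
  -- all classes are in the norm group of `g`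
  have h1 : ∀ b : A, φ (-x') * b ∈ Nn (φ g) := by
    intro b
    have hg0 : (g : F) ≠ 0 := g.ne_zero
    obtain ⟨t, ht, ht1⟩ := hxε (x * ((rep b : F) - 1) / g) (by
      rw [map_div₀, map_mul, hg1, div_one]
      exact mul_le_mul_right (hε2 b) _)
    have h2 : φ (-x' * rep b) ∈ Nn (φ (g * t)) := by
      apply h.sum
      rw [Units.val_mul, Units.val_mul, Units.val_neg, ht, hx', mul_add,
        mul_div_cancel₀ _ hg0, hg]
      ring
    rwa [map_mul φ (-x'), map_mul φ g, ht1, mul_one, hrep2] at h2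
  apply ha
  apply h.nd
  intro b
  apply h.symm
  have h2 := h1 ((φ (-x'))⁻¹ * b)
  rwa [mul_inv_cancel_left] at h2

/-- The leaves. -/
theorem leaf' (hp : p.Prime) (hpF : (p : F) ≠ 0) [Finite A₀] [Finite A] [Nontrivial A]
    (h : Nd φ Nn) (hi : Indec φ Nn) (hk : ∀ u : Fˣ, φ₀ u = 1 ↔ ∃ c : Fˣ, u = c ^ p)
    (hkp : ∀ c : Fˣ, φ (c ^ p) = 1) [Infinite F] :
    (∃ O : ValuationSubring F, O ≠ ⊤ ∧ O.valuation (p : F) = 1 ∧ Cmp φ O) ∨
      (∃ O : ValuationSubring F, Pd φ p O) ∨ (p = 2 ∧ Ordg φ.ker) := by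
  rcases open_or_ord h hi hp hkp with ⟨V, c, hcV, hcV', hc⟩ | hord
  swap
  · exact Or.inr (Or.inr hord)
  -- rings of rank one
  have key : ∀ (O : ValuationSubring F) (d : Fˣ), O ≠ ⊤ → O.valuation (d : F) < 1 →
      (∀ v : F, O.valuation v ≤ O.valuation (d : F) → ∃ u : Fˣ, (u : F) = 1 + v ∧ φ u = 1) →
      (∀ x : F, O.valuation x < 1 → ∀ y : Fˣ, ∃ j : ℕ,
          O.valuation x ^ j ≤ O.valuation (y : F)) →
      (∃ O : ValuationSubring F, O ≠ ⊤ ∧ O.valuation (p : F) = 1 ∧ Cmp φ O) ∨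
      (∃ O : ValuationSubring F, Pd φ p O) ∨ (p = 2 ∧ Ordg φ.ker) := by
    intro O d hO hd1 hd harch
    rcases (val_natCast_le O p).lt_or_eq with h1 | h1
    · exact Or.inr (Or.inl ⟨O, h1, ⟨d, hd1, hd⟩, harch,
        exists_nu'' hp O h hk hkp h1 hd1 hd harch⟩)
    · exact Or.inl ⟨O, hO, h1, fun x hx => newton' O h1 hkp hd hx (harch x hx d)⟩
  rcases coarse2 V hcV hcV' hc with ⟨O, hO, hC, -, -⟩ | ⟨O, d, hO, -, -, hd1, hd, harch⟩
  · rcases (val_natCast_le O p).lt_or_eq with h1 | h1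
    · obtain ⟨q, hq⟩ : ∃ q : Fˣ, (q : F) = p := ⟨Units.mk0 _ hpF, Units.val_mk0 _⟩
      rw [← hq] at h1
      have h1' : ((q⁻¹ : Fˣ) : F) ∉ O := by
        rw [Units.val_inv_eq_inv_val]
        exact ((EB.lt_one_iff O).1 h1).resolve_left q.ne_zero
      rcases coarse2 O ((O.valuation_le_one_iff _).1 h1.le) h1' (fun v hv => hC _ (by
        rw [map_mul]
        exact mul_lt_one_of_nonneg_of_lt_one_left zero_le h1
          ((O.valuation_le_one_iff _).2 hv))) with
        ⟨O', hO', hC', -, hq'⟩ | ⟨O', d, hO', -, -, hd1, hd, harch⟩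
      · left
        refine ⟨O', hO', ?_, hC'⟩
        rw [pv_iff O' hpF, ← hq, ← Units.val_inv_eq_inv_val]
        exact hq'
      · exact key O' d hO' hd1 hd harch
    · exact Or.inl ⟨O, hO, h1, hC⟩
  · exact key O d hO hd1 hd harch

end

end Pool.Agent.Helper58.EU
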