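import Mathlib
import Pool.Agent.Helper58.EU.Leaf

set_option autoImplicit false

/-! Nondegenerate systems of symbols decompose into local blocks. -/

namespace Pool.Agent.Helper58.EU

open Pool.Agent.Y920.EP Pool.Agent.Helper58.EB Pool.Agent.Helper58.ET
open scoped TensorProduct

section

variable {F : Type} [Field F] {A : Type} [CommGroup A] {φ : Fˣ →* A} {p : ℕ} {ζ : Fˣ}

/-- the classes modulo `p`-th powers of the residue field -/
lemma finite_classes (hp : p.Prime) {A₀ : Type} [CommGroup A₀] [Finite A₀] {φ₀ : Fˣ →* A₀}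
    (hk : ∀ u : Fˣ, φ₀ u = 1 ↔ ∃ c : Fˣ, u = c ^ p) (O : ValuationSubring F) :
    ∃ (B : Type) (_ : CommGroup B) (_ : Finite B) (θ : (IsLocalRing.ResidueField O)ˣ →* B),
      ∀ u : (IsLocalRing.ResidueField O)ˣ, θ u = 1 ↔ ∃ c, u = c ^ p := by
  classical
  have hn : ∀ u : (IsLocalRing.ResidueField O)ˣ,
      (QuotientGroup.mk' (powMonoidHom p : (IsLocalRing.ResidueField O)ˣ →* _).range) u = 1 ↔
        ∃ c, u = c ^ p := by
    intro u
    rw [QuotientGroup.mk'_apply, QuotientGroup.eq_one_iff]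
    constructor
    · rintro ⟨c, rfl⟩
      exact ⟨c, rfl⟩
    · rintro ⟨c, rfl⟩
      exact ⟨c, rfl⟩
  refine ⟨(IsLocalRing.ResidueField O)ˣ ⧸
    (powMonoidHom p : (IsLocalRing.ResidueField O)ˣ →* _).range, inferInstance, ?_,
    QuotientGroup.mk' _, hn⟩
  choose s hs using fun x => lift_unit O x
  refine Finite.of_injective (fun x : (IsLocalRing.ResidueField O)ˣ ⧸
    (powMonoidHom p : (IsLocalRing.ResidueField O)ˣ →* _).range => φ₀ (s x.out)) ?_
  intro x y hxy
  have h1 : φ₀ ((s x.out : Fˣ) / s y.out) = 1 := by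
    rw [map_div, div_eq_one]
    exact hxy
  obtain ⟨c, hc⟩ := (hk _).1 h1
  have hcv : O.valuation (c : F) = 1 := by
    have h2 : O.valuation (((s x.out : Fˣ) / s y.out : Fˣ) : F) = 1 :=
      (s x.out / s y.out).2
    rw [hc, Units.val_pow_eq_pow_val, map_pow] at h2
    exact (pow_eq_one_iff_of_nonneg zero_le hp.ne_zero).1 h2
  have h3 : s x.out = s y.out * ⟨c, hcv⟩ ^ p := by
    ext
    push_cast
    rw [← Units.val_pow_eq_pow_val, ← hc, ← Units.val_mul, mul_div_cancel]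
  have h4 : x.out = y.out * (O.unitGroupToResidueFieldUnits ⟨c, hcv⟩) ^ p := by
    rw [← hs x.out, h3, map_mul, map_pow, hs]
  rw [← QuotientGroup.out_eq' x, ← QuotientGroup.out_eq' y, QuotientGroup.eq]
  refine ⟨(O.unitGroupToResidueFieldUnits ⟨c, hcv⟩)⁻¹, ?_⟩
  rw [h4]
  simp

lemma st_top_of_subsingleton [Subsingleton A] (x : Additive A ⊗[ℤ] Additive A) : x ∈ St φ := by
  refine tensor_ind (fun a b => ?_) x
  rw [Subsingleton.elim a 1, ofMul_one, TensorProduct.zero_tmul]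
  exact zero_mem _

/-- a single block -/
lemma dec_one (h : (∃ O, LfA φ p ⊥ O) ∨ (∃ O, LfB φ p ζ ⊥ O) ∨ LfR φ p ⊥) : Dec φ p ζ := by
  refine ⟨Unit, inferInstance, fun _ => ⊥, fun a => ⟨a (), fun _ => by simp⟩,
    fun a ha => Subgroup.mem_bot.1 (ha ()), ?_, fun _ => h⟩
  intro x hx
  have h1 := hx ()
  have h2 : Lt (⊥ : Subgroup A) = ⊥ := by
    rw [eq_bot_iff]
    unfold Lt
    rw [AddSubgroup.closure_le]
    rintro _ ⟨l, hl, a, h | h⟩
    · rw [Subgroup.mem_bot] at hl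
      rw [h, hl, ofMul_one, TensorProduct.zero_tmul]
      exact zero_mem _
    · rw [Subgroup.mem_bot] at hl
      rw [h, hl, ofMul_one, TensorProduct.tmul_zero]
      exact zero_mem _
  rwa [h2, sup_bot_eq] at h1

end

/-- Nondegenerate systems of symbols decompose into local blocks. -/
theorem rec_aux (p : ℕ) (hp : p.Prime) (n : ℕ) :
    ∀ (F : Type) [Field F] (A : Type) [CommGroup A] [Finite A] (A₀ : Type) [CommGroup A₀]
      [Finite A₀] (φ₀ : Fˣ →* A₀) (φ : Fˣ →* A) (ζ : Fˣ), Nat.card A ≤ n → (p : F) ≠ 0 →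
      IsPrimitiveRoot ζ p → (∀ u : Fˣ, φ₀ u = 1 ↔ ∃ c : Fˣ, u = c ^ p) →
      (∀ c : Fˣ, φ (c ^ p) = 1) → Nd φ (Ns φ) → Dec φ p ζ := by
  induction n with
  | zero =>
    intro F _ A _ _ A₀ _ _ φ₀ φ ζ hn
    exact absurd hn (not_le.2 Nat.card_pos)
  | succ n ih =>
    intro F _ A _ _ A₀ _ _ φ₀ φ ζ hn hpF hζ hk hkp h
    rcases subsingleton_or_nontrivial A with hA | hA
    · exact ⟨Empty, inferInstance, fun i => i.elim, fun a => ⟨1, fun i => i.elim⟩,
        fun a _ => Subsingleton.elim _ _, fun x _ => st_top_of_subsingleton x, fun i => i.elim⟩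
    obtain ⟨O, hO, hmin⟩ := exists_min_gd (φ := φ) hpF
    by_cases htop : AU φ O = ⊤
    swap
    · -- a tame block
      apply dec_one
      left
      obtain ⟨a, ha⟩ : ∃ a, a ∉ AU φ O := by
        by_contra hcon
        push Not at hcon
        exact htop ((Subgroup.eq_top_iff' _).2 hcon)
      obtain ⟨c, rfl⟩ := h.surj a
      refine ⟨O, hO.pv, ?_, c, ?_⟩
      · intro x hx
        obtain ⟨u, hu, hu1⟩ := hO.cmp x hx
        exact ⟨u, hu, by rw [hu1]; exact Subgroup.one_mem _⟩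
      · intro u hu h1
        rw [Subgroup.mem_bot, div_eq_one] at h1
        apply ha
        rw [h1]
        exact ⟨u, hu, rfl⟩
    -- the residue field
    obtain ⟨ψ, hψ⟩ := exists_psi O hO.cmp
    obtain ⟨B, _, _, θ, hθ⟩ := finite_classes hp hk O
    obtain ⟨hζv, ξ, hξ, hres, hζ1⟩ := zeta_res' hp hζ hO.pv
    have hsurj : Function.Surjective ((AU φ O).subtype.comp ψ) := by
      intro a
      have ha : a ∈ AU φ O := by rw [htop]; exact Subgroup.mem_top a
      obtain ⟨x, hx⟩ := surj_res hψ ⟨a, ha⟩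
      exact ⟨x, congrArg Subtype.val hx⟩
    have hst := st_res'' hO.cmp hψ hsurj
    have hnd : Nd ((AU φ O).subtype.comp ψ) (Ns ((AU φ O).subtype.comp ψ)) := by
      apply nd_k2' hsurj
      intro a ha
      apply h.nd
      intro b
      apply h.symm
      rw [mem_Ns, ← hst]
      exact ha b
    have hkp' : ∀ c : (IsLocalRing.ResidueField O)ˣ, (AU φ O).subtype.comp ψ (c ^ p) = 1 := by
      intro c
      obtain ⟨u, hu, -, hu1⟩ := exists_lift hψ c
      rw [map_pow, ← hu1, ← map_pow, hkp]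
    have hpR : (p : IsLocalRing.ResidueField O) ≠ 0 := by
      rw [← res_p (val_one_mem O hO.pv)]
      exact res_ne hO.pv _
    refine dec_res' hO hψ hsurj hζv hres hζ1 ?_
    by_cases hi : Indec ((AU φ O).subtype.comp ψ) (Ns ((AU φ O).subtype.comp ψ))
    · have hinf := hnd.infinite' hp hkp'
      rcases leaf' hp hpR hnd hi hθ hkp' with ⟨O₁, hO₁, hpv, hC⟩ | ⟨O₁, hO₁⟩ | ⟨hp2, hO₁⟩
      · exfalso
        obtain ⟨O', hO', hle, hnle⟩ := comp_res hpF hO hψ O₁ ⟨hpv, fun x hx => by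
          obtain ⟨u, hu, hu1⟩ := hC x hx
          exact ⟨u, hu, Subtype.ext hu1⟩⟩ hO₁
        exact hnle (hmin O' hO' hle)
      · exact dec_one (Or.inr (Or.inl ⟨O₁, padic hp hξ hθ hkp' hnd hO₁ hpR⟩))
      · exact dec_one (Or.inr (Or.inr ⟨hp2, hO₁⟩))
    · unfold Indec at hi
      push Not at hi
      obtain ⟨H, K, hS, hH, hK⟩ := hi
      obtain ⟨π, ρ, h1, h2, h3, h4, h5⟩ := exists_proj' hS.sup hS.inf
      have hHst := st_comp' π ρ h1 (fun u v huv a ha k hk a' ha' k' hk' hu hv =>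
        (hS.pr u v huv a ha k hk a' ha' k' hk' hu hv).1)
      have hKst := st_comp' (H := K) (K := H) ρ π (fun a => by rw [mul_comm]; exact h1 a)
        (fun u v huv a ha k hk a' ha' k' hk' hu hv =>
          (hS.pr u v huv k hk a ha k' hk' a' ha' (by rw [mul_comm]; exact hu)
            (by rw [mul_comm]; exact hv)).2)
      have hcard : Nat.card H * Nat.card K ≤ Nat.card A := by
        rw [← Nat.card_prod]
        refine Nat.card_le_card_of_injective (fun x : H × K => (x.1 : A) * (x.2 : A)) ?_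
        rintro ⟨a, b⟩ ⟨c, d⟩ hab
        obtain ⟨e1, e2⟩ := eq_of_mul hS.inf a.2 b.2 c.2 d.2 hab
        exact Prod.ext (Subtype.ext e1) (Subtype.ext e2)
      have hH1 : 2 ≤ Nat.card H := by
        have := (Subgroup.nontrivial_iff_ne_bot H).2 hH
        exact Finite.one_lt_card
      have hK1 : 2 ≤ Nat.card K := by
        have := (Subgroup.nontrivial_iff_ne_bot K).2 hK
        exact Finite.one_lt_card
      have hHn : Nat.card H ≤ n := by nlinarith
      have hKn : Nat.card K ≤ n := by nlinarith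
      refine dec_split' hnd hS π ρ h1 h2 h3 h4 h5 ?_ ?_
      · exact ih _ H B θ _ ξ hHn hpR hξ hθ (fun c => by rw [MonoidHom.comp_apply, hkp', map_one])
          (nd_comp' hnd hS.orth π ρ h1 h2 hHst)
      · exact ih _ K B θ _ ξ hKn hpR hξ hθ (fun c => by rw [MonoidHom.comp_apply, hkp', map_one])
          (nd_comp' hnd (fun a ha k hk => hnd.symm _ _ (hS.orth k hk a ha)) ρ π
            (fun a => by rw [mul_comm]; exact h1 a) h5 hKst)

/-- Nondegenerate systems of symbols decompose into local blocks. -/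
theorem exists_dec {F : Type} [Field F] {A : Type} [CommGroup A] [Finite A] {A₀ : Type}
    [CommGroup A₀] [Finite A₀] {φ₀ : Fˣ →* A₀} {φ : Fˣ →* A} {p : ℕ} {ζ : Fˣ} (hp : p.Prime)
    (hζ : IsPrimitiveRoot ζ p) (hk : ∀ u : Fˣ, φ₀ u = 1 ↔ ∃ c : Fˣ, u = c ^ p)
    (hkp : ∀ c : Fˣ, φ (c ^ p) = 1) (h : Nd φ (Ns φ)) : Dec φ p ζ := by
  have hpF : (p : F) ≠ 0 := by
    have : NeZero p := ⟨hp.ne_zero⟩
    have hζ' : IsPrimitiveRoot (ζ : F) p := by rwa [IsPrimitiveRoot.coe_units_iff]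
    exact hζ'.neZero'.ne
  exact rec_aux p hp _ F A A₀ φ₀ φ ζ le_rfl hpF hζ hk hkp h

end Pool.Agent.Helper58.EU
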