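import Mathlib
import Pool.Agent.Helper58.EU.Rec

set_option autoImplicit false

/-! The decomposition of `K₂(F)/p` into local parts. -/

namespace Pool.Agent.Helper58.EU

open Pool.Agent.Y920.EP Pool.Agent.Helper58.EB Pool.Agent.Helper58.ET
open scoped TensorProduct

section

variable {F : Type} [Field F] {A : Type} [CommGroup A] {φ : Fˣ →* A}

/-- the radical of the symbols -/
def Rad (φ : Fˣ →* A) : Subgroup A where
  carrier := {a | ∀ b : A, Additive.ofMul a ⊗ₜ[ℤ] Additive.ofMul b ∈ St φ}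
  mul_mem' := by
    intro a a' ha ha' b
    rw [ofMul_mul, TensorProduct.add_tmul]
    exact add_mem (ha b) (ha' b)
  one_mem' := by
    intro b
    rw [ofMul_one, TensorProduct.zero_tmul]
    exact zero_mem _
  inv_mem' := by
    intro a ha b
    rw [ofMul_inv, TensorProduct.neg_tmul]
    exact neg_mem (ha b)

lemma mem_Rad {a : A} : a ∈ Rad φ ↔ ∀ b : A, Additive.ofMul a ⊗ₜ[ℤ] Additive.ofMul b ∈ St φ :=
  Iff.rfl

lemma Rad_right (hφ : Function.Surjective φ) {a : A} (ha : a ∈ Rad φ) (b : A) :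
    Additive.ofMul b ⊗ₜ[ℤ] Additive.ofMul a ∈ St φ := by
  have h1 := sub_mem (st_symm' hφ a b) (ha b)
  rwa [add_sub_cancel_left] at h1

/-- relations modulo the radical are relations -/
lemma st_of_rad (hφ : Function.Surjective φ) {x : Additive A ⊗[ℤ] Additive A}
    (hx : tmap (QuotientGroup.mk' (Rad φ)) x ∈ St ((QuotientGroup.mk' (Rad φ)).comp φ)) :
    x ∈ St φ := by
  -- the quotient by the relations
  let Q := (Additive A ⊗[ℤ] Additive A) ⧸ St φ
  let q : (Additive A ⊗[ℤ] Additive A) →+ Q := QuotientAddGroup.mk' (St φ)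
  have hq0 : ∀ x, q x = 0 ↔ x ∈ St φ := fun x => by
    exact QuotientAddGroup.eq_zero_iff x
  have hb : ∀ (a : A) (b b' : A), (QuotientGroup.mk' (Rad φ)) b = (QuotientGroup.mk' (Rad φ)) b' →
      q (Additive.ofMul a ⊗ₜ[ℤ] Additive.ofMul b) = q (Additive.ofMul a ⊗ₜ[ℤ] Additive.ofMul b') := by
    intro a b b' h
    rw [← sub_eq_zero, ← map_sub, hq0, ← TensorProduct.tmul_sub, ← ofMul_div]
    apply Rad_right hφ
    rw [← QuotientGroup.eq_one_iff, ← QuotientGroup.mk'_apply, map_div, h, div_self']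
  have ha : ∀ (a a' : A) (b : A), (QuotientGroup.mk' (Rad φ)) a = (QuotientGroup.mk' (Rad φ)) a' →
      q (Additive.ofMul a ⊗ₜ[ℤ] Additive.ofMul b) = q (Additive.ofMul a' ⊗ₜ[ℤ] Additive.ofMul b) := by
    intro a a' b h
    rw [← sub_eq_zero, ← map_sub, hq0, ← TensorProduct.sub_tmul, ← ofMul_div]
    apply mem_Rad.1
    rw [← QuotientGroup.eq_one_iff, ← QuotientGroup.mk'_apply, map_div, h, div_self']
  let g : Additive (A ⧸ Rad φ) →+ Additive (A ⧸ Rad φ) →+ Q :=
    AddMonoidHom.mk' (fun a => AddMonoidHom.mk' (fun b =>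
      q (Additive.ofMul (Quotient.out (Additive.toMul a) : A) ⊗ₜ[ℤ]
        Additive.ofMul (Quotient.out (Additive.toMul b) : A))) (by
          intro b b'
          rw [← map_add, ← TensorProduct.tmul_add, ← ofMul_mul]
          apply hb
          rw [map_mul, QuotientGroup.mk'_apply, QuotientGroup.mk'_apply, QuotientGroup.mk'_apply,
            QuotientGroup.out_eq', QuotientGroup.out_eq', QuotientGroup.out_eq']
          rfl)) (by
          intro a a'
          ext b
          change q _ = q _ + q _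
          rw [← map_add, ← TensorProduct.add_tmul, ← ofMul_mul]
          apply ha
          rw [map_mul, QuotientGroup.mk'_apply, QuotientGroup.mk'_apply, QuotientGroup.mk'_apply,
            QuotientGroup.out_eq', QuotientGroup.out_eq', QuotientGroup.out_eq']
          rfl)
  let G : Additive (A ⧸ Rad φ) ⊗[ℤ] Additive (A ⧸ Rad φ) →+ Q :=
    TensorProduct.liftAddHom g (by
      intro r a b
      rw [map_zsmul, map_zsmul, AddMonoidHom.smul_apply])
  have hG : ∀ a b : A, G (Additive.ofMul (QuotientGroup.mk' (Rad φ) a) ⊗ₜ[ℤ]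
      Additive.ofMul (QuotientGroup.mk' (Rad φ) b)) =
      q (Additive.ofMul a ⊗ₜ[ℤ] Additive.ofMul b) := by
    intro a b
    have h1 : G (Additive.ofMul (QuotientGroup.mk' (Rad φ) a) ⊗ₜ[ℤ]
      Additive.ofMul (QuotientGroup.mk' (Rad φ) b)) =
      q (Additive.ofMul (Quotient.out (QuotientGroup.mk' (Rad φ) a) : A) ⊗ₜ[ℤ]
        Additive.ofMul (Quotient.out (QuotientGroup.mk' (Rad φ) b) : A)) := rfl
    rw [h1]
    have h2 : ∀ c : A, (QuotientGroup.mk' (Rad φ)) (Quotient.out (QuotientGroup.mk' (Rad φ) c)) =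
        (QuotientGroup.mk' (Rad φ)) c := by
      intro c
      rw [QuotientGroup.mk'_apply, QuotientGroup.mk'_apply, QuotientGroup.out_eq']
    rw [ha _ _ _ (h2 a), hb _ _ _ (h2 b)]
  have hGt : ∀ x, G (tmap (QuotientGroup.mk' (Rad φ)) x) = q x := by
    intro x
    induction x using TensorProduct.induction_on with
    | zero => rw [map_zero, map_zero, map_zero]
    | tmul a b => exact hG (Additive.toMul a) (Additive.toMul b)
    | add a b ha hb => rw [map_add, map_add, map_add, ha, hb]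
  rw [← hq0, ← hGt]
  have h3 : St ((QuotientGroup.mk' (Rad φ)).comp φ) ≤ G.ker := by
    unfold St
    rw [AddSubgroup.closure_le]
    rintro _ ⟨u, v, huv, rfl⟩
    have h4 := (hG (φ u) (φ v)).trans ((hq0 _).2 (st_add huv))
    exact h4
  exact h3 hx

/-- the structure theorem -/
theorem top [Finite A] {p : ℕ} (hp : p.Prime) (hφ : Function.Surjective φ) {ζ : Fˣ}
    (hζ : IsPrimitiveRoot ζ p) (hk : ∀ u : Fˣ, φ u = 1 ↔ ∃ c : Fˣ, u = c ^ p) :
    ∃ (I : Type) (_ : Finite I) (L : I → Subgroup A),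
      (∀ a : I → A, ∃ y : A, ∀ i, y / a i ∈ L i) ∧
      (∀ a : A, (∀ i, a ∈ L i) ↔ a ∈ Rad φ) ∧
      (∀ x, (∀ i, x ∈ St φ ⊔ Lt (L i)) → x ∈ St φ) ∧
      ∀ i, (∃ O, LfA φ p (L i) O) ∨ (∃ O, LfB φ p ζ (L i) O) ∨ LfR φ p (L i) := by
  have hq1 : ∀ a : A, QuotientGroup.mk' (Rad φ) a = 1 ↔ a ∈ Rad φ := fun a => by
    rw [QuotientGroup.mk'_apply, QuotientGroup.eq_one_iff]
  have hφ' : Function.Surjective ((QuotientGroup.mk' (Rad φ)).comp φ) :=
    (QuotientGroup.mk'_surjective _).comp hφ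
  have hnd : Nd ((QuotientGroup.mk' (Rad φ)).comp φ) (Ns ((QuotientGroup.mk' (Rad φ)).comp φ)) := by
    apply nd_k2' hφ'
    intro a ha
    obtain ⟨a, rfl⟩ := QuotientGroup.mk'_surjective _ a
    rw [hq1]
    intro b
    apply st_of_rad hφ
    rw [tmap_tmul]
    exact ha _
  obtain ⟨I, hI, L, a1, a2, a3, a4⟩ := exists_dec (φ₀ := φ) hp hζ hk (fun c => by
    rw [MonoidHom.comp_apply, (hk _).2 ⟨c, rfl⟩, map_one]) hnd
  refine ⟨I, hI, fun i => (L i).comap (QuotientGroup.mk' (Rad φ)), ?_, ?_, ?_, ?_⟩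
  · intro a
    obtain ⟨y, hy⟩ := a1 fun i => QuotientGroup.mk' (Rad φ) (a i)
    obtain ⟨y, rfl⟩ := QuotientGroup.mk'_surjective _ y
    exact ⟨y, fun i => by rw [Subgroup.mem_comap, map_div]; exact hy i⟩
  · intro a
    constructor
    · intro h
      rw [← hq1]
      exact a2 _ h
    · intro h i
      rw [Subgroup.mem_comap, (hq1 a).2 h]
      exact one_mem _
  · intro x hx
    exact st_of_rad hφ (a3 _ fun i => sup_map (hx i))
  · intro i
    rcases a4 i with ⟨O, hO⟩ | ⟨O, hO⟩ | ⟨h2, hO⟩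
    · exact Or.inl ⟨O, lfA_map hO⟩
    · exact Or.inr (Or.inl ⟨O, lfB_map hO⟩)
    · exact Or.inr (Or.inr ⟨h2, hO⟩)

end

end Pool.Agent.Helper58.EU
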