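import Mathlib
import Pool.Agent.Helper58.EU.Top

set_option autoImplicit false

/-! The tame symbol modulo `p` and the local `p`-th powers. -/

namespace Pool.Agent.Helper58.EU

open Pool.Agent.Y920.EP Pool.Agent.Helper58.EB Pool.Agent.Helper58.ET
open scoped TensorProduct

section

variable {F : Type} [Field F]

lemma val_one_add (O : ValuationSubring F) {x : F} (hx : O.valuation x < 1) :
    O.valuation (1 + x) = 1 := by
  rw [Valuation.map_add_eq_of_lt_left _ (by rwa [map_one]), map_one]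

/-- the `p`-th powers of `F` times the elements `1 + x`, `v x < r` -/
def Cl (p : ℕ) (O : ValuationSubring F) (r : O.ValueGroup) (h0 : r ≠ 0) (h1 : r ≤ 1) :
    Subgroup Fˣ where
  carrier := {t | ∃ (f : Fˣ) (x : F), O.valuation x < r ∧ (t : F) = (f : F) ^ p * (1 + x)}
  mul_mem' := by
    rintro a b ⟨f, x, hx, ha⟩ ⟨g, y, hy, hb⟩
    refine ⟨f * g, x + y + x * y, ?_, ?_⟩
    · refine Valuation.map_add_lt _ (Valuation.map_add_lt _ hx hy) ?_
      rw [map_mul]
      refine lt_of_le_of_lt (mul_le_mul' le_rfl (hy.le.trans h1)) ?_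
      rwa [mul_one]
    · rw [Units.val_mul, Units.val_mul, ha, hb]
      ring
  one_mem' := ⟨1, 0, by rw [map_zero]; exact zero_lt_iff.2 h0, by simp⟩
  inv_mem' := by
    rintro a ⟨f, x, hx, ha⟩
    have h2 : O.valuation (1 + x) = 1 := val_one_add O (lt_of_lt_of_le hx h1)
    have h3 : (1 : F) + x ≠ 0 := by
      intro e
      rw [e, map_zero] at h2
      exact zero_ne_one h2
    refine ⟨f⁻¹, -x / (1 + x), ?_, ?_⟩
    · rw [map_div₀, h2, div_one, Valuation.map_neg]
      exact hx
    · rw [Units.val_inv_eq_inv_val, Units.val_inv_eq_inv_val, ha]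
      have hf : (f : F) ≠ 0 := f.ne_zero
      rw [inv_pow]
      field_simp
      ring

lemma mem_Cl {p : ℕ} {O : ValuationSubring F} {r : O.ValueGroup} {h0 : r ≠ 0} {h1 : r ≤ 1}
    {t : Fˣ} : t ∈ Cl p O r h0 h1 ↔ ∃ (f : Fˣ) (x : F), O.valuation x < r ∧
      (t : F) = (f : F) ^ p * (1 + x) := Iff.rfl

/-- the tame case -/
noncomputable abbrev Ct (p : ℕ) (O : ValuationSubring F) : Subgroup Fˣ := Cl p O 1 one_ne_zero le_rfl

lemma pow_mem_Cl {p : ℕ} {O : ValuationSubring F} {r : O.ValueGroup} {h0 : r ≠ 0} {h1 : r ≤ 1}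
    (c : Fˣ) : c ^ p ∈ Cl p O r h0 h1 :=
  ⟨c, 0, by rw [map_zero]; exact zero_lt_iff.2 h0, by simp⟩

variable {A : Type} [CommGroup A] {φ : Fˣ →* A} {p : ℕ}

lemma exists_lift (hφ : Function.Surjective φ) (C : Subgroup Fˣ) (hC : ∀ u, φ u = 1 → u ∈ C)
    (hCp : ∀ u, u ^ p ∈ C) :
    ∃ (W : Type) (_ : AddCommGroup W) (g : Additive A →+ W), (∀ x : W, p • x = 0) ∧
      ∀ u : Fˣ, g (Additive.ofMul (φ u)) = 0 ↔ u ∈ C := by
  obtain ⟨g, hg⟩ : ∃ g : A →* Fˣ ⧸ C, ∀ u, g (φ u) = QuotientGroup.mk u := by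
    refine ⟨(MonoidHom.liftOfSurjective φ hφ) ⟨QuotientGroup.mk' C, ?_⟩, fun u => ?_⟩
    · intro u hu
      rw [MonoidHom.mem_ker] at hu ⊢
      exact (QuotientGroup.eq_one_iff u).2 (hC u hu)
    · exact MonoidHom.liftOfRightInverse_comp_apply _ _ _ _ u
  refine ⟨Additive (Fˣ ⧸ C), inferInstance, MonoidHom.toAdditive g, ?_, ?_⟩
  · intro x
    obtain ⟨a, ha⟩ := QuotientGroup.mk_surjective (Additive.toMul x)
    apply Additive.toMul.injective
    rw [toMul_nsmul, toMul_zero, ← ha, ← QuotientGroup.mk_pow]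
    exact (QuotientGroup.eq_one_iff _).2 (hCp a)
  · intro u
    rw [← QuotientGroup.eq_one_iff, ← hg u]
    exact Iff.rfl

lemma exists_dual0 {K V : Type} [Field K] [AddCommGroup V] [Module K V] {v : V} (hv : v ≠ 0) :
    ∃ f : V →ₗ[K] K, f v = 1 := Module.Projective.exists_dual_eq_one K hv

lemma exists_dual {p : ℕ} [Fact p.Prime] {V : Type} [AddCommGroup V] (hV : ∀ x : V, p • x = 0)
    {v : V} (hv : v ≠ 0) : ∃ f : V →+ ZMod p, f v = 1 := by
  let _ : Module (ZMod p) V := AddCommGroup.zmodModule hV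
  obtain ⟨f, hf⟩ := exists_dual0 (K := ZMod p) hv
  exact ⟨f.toAddMonoidHom, hf⟩

/-- a character of `F*/F*^p` which is trivial on a subgroup and not at a given element -/
lemma exists_chi [Fact p.Prime] (hAp : ∀ a : A, a ^ p = 1) (U : Subgroup A) {c : A} (hc : c ∉ U) :
    ∃ χ : Additive A →+ ZMod p, (∀ u ∈ U, χ (Additive.ofMul u) = 0) ∧
      χ (Additive.ofMul c) = 1 := by
  have hV : ∀ x : Additive (A ⧸ U), p • x = 0 := by
    intro x
    obtain ⟨a, ha⟩ := QuotientGroup.mk_surjective (Additive.toMul x)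
    apply Additive.toMul.injective
    rw [toMul_nsmul, toMul_zero, ← ha, ← QuotientGroup.mk_pow, hAp, QuotientGroup.mk_one]
  have hc' : Additive.ofMul (QuotientGroup.mk c : A ⧸ U) ≠ 0 := by
    intro e
    apply hc
    rw [← QuotientGroup.eq_one_iff]
    exact Additive.ofMul.injective e
  obtain ⟨f, hf⟩ := exists_dual hV hc'
  refine ⟨f.comp (MonoidHom.toAdditive (QuotientGroup.mk' U)), ?_, hf⟩
  intro u hu
  have h1 : Additive.ofMul (QuotientGroup.mk u : A ⧸ U) = 0 := by
    rw [(QuotientGroup.eq_one_iff u).2 hu]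
    rfl
  change f (Additive.ofMul (QuotientGroup.mk u : A ⧸ U)) = 0
  rw [h1, map_zero]

/-- the tame symbol, with values in an elementary abelian group -/
theorem tame {p : ℕ} [Fact p.Prime] {V W : Type} [AddCommGroup V] [AddCommGroup W]
    (hW : ∀ x : W, p • x = 0) (χ : V →+ ZMod p) (g : V →+ W) (e : W) :
    ∃ S : V ⊗[ℤ] V →+ W, ∀ (a b : V) (i j : ℤ), χ a = i → χ b = j →
      S (a ⊗ₜ[ℤ] b) = (i * j) • e + j • g a - i • g b := by
  let _ : Module (ZMod p) W := AddCommGroup.zmodModule hW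
  let f : V →+ V →+ W :=
    AddMonoidHom.mk' (fun a => AddMonoidHom.mk' (fun b =>
      (χ a * χ b) • e + χ b • g a - χ a • g b) (by
        intro b b'
        simp only [map_add, mul_add, add_smul, smul_add]
        abel)) (by
        intro a a'
        ext b
        change _ = ((χ a * χ b) • e + χ b • g a - χ a • g b) +
          ((χ a' * χ b) • e + χ b • g a' - χ a' • g b)
        change (χ (a + a') * χ b) • e + χ b • g (a + a') - χ (a + a') • g b = _
        simp only [map_add, add_mul, add_smul, smul_add]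
        abel)
  refine ⟨TensorProduct.liftAddHom f (by
    intro r a b
    rw [map_zsmul, map_zsmul, AddMonoidHom.smul_apply]), fun a b i j hi hj => ?_⟩
  change (χ a * χ b) • e + χ b • g a - χ a • g b = _
  rw [hi, hj, ← Int.cast_mul, Int.cast_smul_eq_zsmul, Int.cast_smul_eq_zsmul,
    Int.cast_smul_eq_zsmul]

/-- the tame symbol kills the Steinberg relations -/
theorem tame_st [Fact p.Prime] {W : Type} [AddCommGroup W] (hW : ∀ x : W, p • x = 0)
    (O : ValuationSubring F) (χ : Additive A →+ ZMod p) (g : Additive A →+ W)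
    (hχu : ∀ u : Fˣ, O.valuation (u : F) = 1 → χ (Additive.ofMul (φ u)) = 0)
    (hone : ∀ u : Fˣ, O.valuation ((u : F) - 1) < 1 → g (Additive.ofMul (φ u)) = 0)
    {c x : Fˣ} (hc : χ (Additive.ofMul (φ c)) = 1)
    (h : Additive.ofMul (φ c) ⊗ₜ[ℤ] Additive.ofMul (φ x) ∈ St φ) :
    ∃ j : ℤ, g (Additive.ofMul (φ (x / (-c) ^ j))) = 0 := by
  obtain ⟨S, hS⟩ := tame hW χ g (g (Additive.ofMul (φ (-1))))
  -- Steinberg relations
  have hSt : ∀ u v : Fˣ, (u : F) + v = 1 →
      S (Additive.ofMul (φ u) ⊗ₜ[ℤ] Additive.ofMul (φ v)) = 0 := by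
    intro u v huv
    obtain ⟨i, hi⟩ := ZMod.intCast_surjective (χ (Additive.ofMul (φ u)))
    obtain ⟨j, hj⟩ := ZMod.intCast_surjective (χ (Additive.ofMul (φ v)))
    rcases lt_trichotomy (O.valuation (u : F)) 1 with h1 | h1 | h1
    · have h2 : O.valuation ((v : F) - 1) < 1 := by
        have : (v : F) - 1 = -u := by linear_combination huv
        rw [this, Valuation.map_neg]
        exact h1
      have h3 : O.valuation (v : F) = 1 := by
        have := val_one_add O h2
        rwa [add_sub_cancel] at this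
      rw [hS _ _ i 0 hi.symm (by rw [hχu v h3]; simp), hone v h2, zsmul_zero]
      simp
    · have h2 : O.valuation (v : F) ≤ 1 := by
        have : (v : F) = 1 - u := by linear_combination huv
        rw [this]
        refine (Valuation.map_sub _ _ _).trans ?_
        rw [map_one, h1, max_self]
      rcases h2.lt_or_eq with h3 | h3
      · have h4 : O.valuation ((u : F) - 1) < 1 := by
          have : (u : F) - 1 = -v := by linear_combination huv
          rw [this, Valuation.map_neg]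
          exact h3
        rw [hS _ _ 0 j (by rw [hχu u h1]; simp) hj.symm, hone u h4, zsmul_zero]
        simp
      · rw [hS _ _ 0 0 (by rw [hχu u h1]; simp) (by rw [hχu v h3]; simp)]
        simp
    · have hu0 : (u : F) ≠ 0 := u.ne_zero
      have h2 : O.valuation (((-(v / u) : Fˣ) : F) - 1) < 1 := by
        have : ((-(v / u) : Fˣ) : F) - 1 = -(u : F)⁻¹ := by
          rw [Units.val_neg, Units.val_div_eq_div_val]
          field_simp
          linear_combination -huv
        rw [this, Valuation.map_neg, map_inv₀]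
        exact inv_lt_one_of_one_lt₀ h1
      have h3 : O.valuation ((-(v / u) : Fˣ) : F) = 1 := by
        have := val_one_add O h2
        rwa [add_sub_cancel] at this
      have hv : φ v = φ (-1) * (φ u * φ (-(v / u))) := by
        rw [← map_mul, ← map_mul]
        congr 1
        ext
        simp only [Units.val_mul, Units.val_neg, Units.val_one, Units.val_div_eq_div_val]
        field_simp
      have hχv : χ (Additive.ofMul (φ v)) = χ (Additive.ofMul (φ u)) := by
        rw [hv, ofMul_mul, ofMul_mul, map_add, map_add, hχu _ h3, hχu (-1) (by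
          rw [Units.val_neg, Units.val_one, Valuation.map_neg, map_one])]
        simp
      have hgv : g (Additive.ofMul (φ v)) =
          g (Additive.ofMul (φ (-1))) + g (Additive.ofMul (φ u)) := by
        rw [hv, ofMul_mul, ofMul_mul, map_add, map_add, hone _ h2, add_zero]
      rw [hS _ _ i i hi.symm (by rw [hχv]; exact hi.symm), hgv, zsmul_add]
      have h4 : ∃ n : ℤ, i * i = n * 2 + i := by
        obtain ⟨n, hn⟩ := Int.even_mul_pred_self i
        exact ⟨n, by linarith⟩
      obtain ⟨n, hn⟩ := h4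
      have h5 : (2 : ℤ) • g (Additive.ofMul (φ (-1))) = 0 := by
        rw [← map_zsmul, ← ofMul_zpow, ← map_zpow]
        have : (-1 : Fˣ) ^ (2 : ℤ) = 1 := by norm_num
        rw [this, map_one, ofMul_one, map_zero]
      rw [hn, add_zsmul, mul_zsmul, h5, zsmul_zero]
      abel
  have h1 : St φ ≤ S.ker := by
    unfold St
    rw [AddSubgroup.closure_le]
    rintro _ ⟨u, v, huv, rfl⟩
    exact hSt u v huv
  have h2 : S (Additive.ofMul (φ c) ⊗ₜ[ℤ] Additive.ofMul (φ x)) = 0 := h1 h
  obtain ⟨j, hj⟩ := ZMod.intCast_surjective (χ (Additive.ofMul (φ x)))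
  rw [hS _ _ 1 j (by rw [hc]; simp) hj.symm, one_mul, one_zsmul, ← zsmul_add] at h2
  refine ⟨j, ?_⟩
  rw [map_div, map_zpow, phi_neg', ofMul_div, ofMul_zpow, ofMul_mul, map_sub, map_zsmul, map_add,
    ← neg_eq_zero, neg_sub]
  exact h2

/-- an element orthogonal to a nonunit -/
theorem lemN [Fact p.Prime] (hφ : Function.Surjective φ)
    (hk : ∀ u : Fˣ, φ u = 1 ↔ ∃ c : Fˣ, u = c ^ p) (O : ValuationSubring F) {c x : Fˣ}
    (hc : ∀ f : Fˣ, O.valuation ((c * f ^ p : Fˣ) : F) ≠ 1)
    (h : Additive.ofMul (φ c) ⊗ₜ[ℤ] Additive.ofMul (φ x) ∈ St φ) :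
    ∃ k : ℤ, x / (-c) ^ k ∈ Ct p O := by
  have hp : p.Prime := Fact.out
  have hAp : ∀ a : A, a ^ p = 1 := by
    intro a
    obtain ⟨u, rfl⟩ := hφ a
    rw [← map_pow]
    exact (hk _).2 ⟨u, rfl⟩
  -- the character
  let U₀ : Subgroup Fˣ :=
    { carrier := {u : Fˣ | O.valuation (u : F) = 1}
      mul_mem' := by
        intro a b (ha : _ = _) (hb : _ = _)
        change _ = _
        rw [Units.val_mul, map_mul, ha, hb, mul_one]
      one_mem' := by
        change _ = _
        rw [Units.val_one, map_one]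
      inv_mem' := by
        intro a (ha : _ = _)
        change _ = _
        rw [Units.val_inv_eq_inv_val, map_inv₀, ha, inv_one] }
  have hcU : φ c ∉ Subgroup.map φ U₀ := by
    rintro ⟨u, hu, huc⟩
    have h1 : φ (u / c) = 1 := by rw [map_div, huc, div_self']
    obtain ⟨f, hf⟩ := (hk _).1 h1
    apply hc f
    rw [← hf, mul_div_cancel]
    exact hu
  obtain ⟨χ, hχ, hχc⟩ := exists_chi hAp (Subgroup.map φ U₀) hcU
  obtain ⟨W, _, g, hW, hg⟩ := exists_lift hφ (Ct p O) (fun u hu => by
    obtain ⟨c, rfl⟩ := (hk _).1 hu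
    exact pow_mem_Cl c) (fun u => pow_mem_Cl u)
  obtain ⟨j, hj⟩ := tame_st hW O χ g (fun u hu => hχ _ ⟨u, hu, rfl⟩)
    (fun u hu => (hg u).2 ⟨1, (u : F) - 1, hu, by simp⟩) hχc h
  exact ⟨j, (hg _).1 hj⟩

end

end Pool.Agent.Helper58.EU
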